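import Mathlib
import Pool.Agent.Y725.LS.RamCase

/-! A point which is far from the nodes at many places of (potentially) multiplicative reduction. -/

set_option autoImplicit false

open Height NumberField Module Finset Pool.Agent.H951R3.PB Filter Topology TH951.LS TH951
open WeierstrassCurve
open Pool.Agent.Y725.LS

namespace Pool.Agent.V5helper58.LA

/-- **Points far from the nodes.** -/
theorem far_case (D : ℕ) {ε : ℝ} (hε : 0 < ε) : ∃ C A : ℝ, 0 < C ∧ 0 ≤ A ∧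
    ∀ (K : Type) [Field K] [NumberField K] [DecidableEq K], finrank ℚ K ≤ D →
    ∀ (W : WeierstrassCurve K) [W.IsElliptic], A < logHeight₁ W.j / finrank ℚ K →
    ∀ ht : W.toAffine.Point → ℝ, (∀ Q : W.toAffine.Point,
      Tendsto (fun n : ℕ => logHeight ((2 ^ n • Q).xRep) / (4 ^ n * finrank ℚ K)) atTop
        (𝓝 (ht Q))) →
    ∀ (wf : FinitePlace K → AbsoluteValue (AlgebraicClosure K) ℝ), (∀ v, Ext v.val (wf v)) →
    ∀ (R : W.toAffine.Point) (G : Finset (FinitePlace K)), ¬ IsOfFinAddOrder R →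
      (∀ v ∈ G, v.val 6 = 1 ∧ 1 < v.val W.j ∧ ∀ i l : ℕ,
        wd (2 ^ i • R).xRep (2 ^ l • R).xRep ≠ 0 →
        Real.log (v.val W.j) / 6 ≤ gg (wf v) (ev (fL K (fW W))) 4
          (Real.log (wf v (rs (fL K (fW W)) 4))) (vL K (2 ^ i • R).xRep)
          (vL K (2 ^ l • R).xRep)) →
      ε * logHeight₁ W.j ≤ ∑ v ∈ G, Real.log (v.val W.j) →
      logHeight₁ W.j / finrank ℚ K ≤ C * ht R := by
  classical
  obtain ⟨N₂, C, hC, hEI⟩ := energy_ineq.{0} D
  obtain ⟨k, hk0, hkN, hka⟩ := exists_pow (a := ε / 24) (b := 2 * C) (by positivity) (N₂ + 2)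
  obtain ⟨n, hn⟩ : ∃ n : ℝ, n = (4 : ℝ) ^ k := ⟨_, rfl⟩
  have hn0 : 0 < n := by rw [hn]; positivity
  rw [← hn] at hka
  have hk1 : (1 : ℝ) ≤ k := by exact_mod_cast hk0
  have hn2 : 2 ≤ n := by
    have h1 : (2 : ℕ) ≤ 4 ^ k := by omega
    rw [hn]; exact_mod_cast h1
  obtain ⟨A₂, hA₂, hEI⟩ := hEI 1 one_ne_zero
  refine ⟨C * (n + k) * 4 ^ (4 ^ k), A₂, by positivity, hA₂, ?_⟩
  intro K _ _ _ hKD W _ hAj ht hlim wf hwf R G hR hG hGs
  have hd : (0 : ℝ) < finrank ℚ K := by exact_mod_cast (finrank_pos : 0 < finrank ℚ K)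
  have hd1 : (1 : ℝ) ≤ finrank ℚ K := by exact_mod_cast (finrank_pos : 0 < finrank ℚ K)
  obtain ⟨d, hdd⟩ : ∃ d : ℝ, d = finrank ℚ K := ⟨_, rfl⟩
  obtain ⟨H, hH⟩ : ∃ H : ℝ, H = logHeight₁ W.j / finrank ℚ K := ⟨_, rfl⟩
  have hdH : logHeight₁ W.j = d * H := by rw [hH, hdd]; field_simp
  have hH0 : 0 < H := by rw [hH]; linarith
  have hHA₂ : A₂ ≤ H := by rw [hH]; linarith
  rw [← hH]
  rw [hdH] at hGs
  rw [← hdd] at hd hd1
  obtain ⟨hnn, hpow⟩ := ht_pow W hlim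
  obtain ⟨μ, hμ⟩ : ∃ μ : ℝ, μ = 4 ^ (4 ^ k) * ht R := ⟨_, rfl⟩
  have hμ0 : 0 ≤ μ := by
    rw [hμ]
    exact mul_nonneg (by positivity) (hnn R)
  have hgoal : d * H ≤ C * (n + k) * (d * μ) → H ≤ C * (n + k) * 4 ^ (4 ^ k) * ht R := by
    intro h
    have h1 : d * H ≤ d * (C * (n + k) * μ) := by linarith
    have h2 := le_of_mul_le_mul_left h1 hd
    rw [hμ] at h2
    linarith
  -- the multiples are different
  have hdist : ∀ i l : Fin (4 ^ k), i ≠ l →
      (2 ^ (i : ℕ) • R).xRep ≠ (2 ^ (l : ℕ) • R).xRep := by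
    have key : ∀ i l : ℕ, i < l → (2 ^ i • R).xRep ≠ (2 ^ l • R).xRep := by
      intro i l hil h
      have h2 : (2 : ℕ) ^ i < 2 ^ l := Nat.pow_lt_pow_right (by norm_num) hil
      rcases Affine.Point.eq_or_eq_neg_of_xRep_eq_xRep h with h1 | h1
      · apply hR
        rw [isOfFinAddOrder_iff_nsmul_eq_zero]
        refine ⟨2 ^ l - 2 ^ i, by omega, ?_⟩
        have h3 : (2 ^ l - 2 ^ i) • R + 2 ^ i • R = 2 ^ i • R := by
          rw [← add_nsmul, Nat.sub_add_cancel h2.le]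
          exact h1.symm
        exact left_eq_add.1 ((add_comm _ _).trans h3).symm
      · apply hR
        rw [isOfFinAddOrder_iff_nsmul_eq_zero]
        refine ⟨2 ^ i + 2 ^ l, by positivity, ?_⟩
        rw [add_nsmul, h1, neg_add_cancel]
    intro i l hil
    rcases lt_or_gt_of_ne (fun h => hil (Fin.ext h) : (i : ℕ) ≠ l) with h | h
    · exact key _ _ h
    · exact (key _ _ h).symm
  apply hgoal
  have hj0 : W.j ≠ 0 := by
    intro h
    rw [hH, h] at hH0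
    simp at hH0
  set S : Finset (FinitePlace K) := (F4_finite_ne hj0).toFinset.filter
    (fun v => v.val ((6 * 1 : ℕ) : K) = 1 ∧ 1 < v.val W.j) with hSd
  have hS : ∀ v, v ∈ S ↔ v.val ((6 * 1 : ℕ) : K) = 1 ∧ 1 < v.val W.j := by
    intro v
    rw [hSd, Finset.mem_filter, Set.Finite.mem_toFinset, Set.mem_ofPred_eq]
    constructor
    · exact fun h => h.2
    · exact fun h => ⟨h.2.ne', h⟩
  obtain ⟨J, hJ⟩ : ∃ J : ℝ, J = ∑ v ∈ S, Real.log (v.val W.j) := ⟨_, rfl⟩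
  have hJH : J ≤ d * H := by
    rw [← hdH, hJ]
    refine le_trans ?_ (FE.posLog_sum_le W.j S)
    have h1 : 0 ≤ ∑ v : InfinitePlace K, (v.mult : ℝ) * Real.posLog (v.val W.j) :=
      Finset.sum_nonneg fun v _ => mul_nonneg (Nat.cast_nonneg _) Real.posLog_nonneg
    have h2 : ∑ v ∈ S, Real.log (v.val W.j) ≤ ∑ v ∈ S, Real.posLog (v.val W.j) :=
      Finset.sum_le_sum fun v _ => le_max_right _ _
    linarith
  obtain ⟨z, hz⟩ : ∃ z : ℝ, z = ∑ v ∈ G, Real.log (v.val W.j) / 6 := ⟨_, rfl⟩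
  have hz6 : ∑ v ∈ G, Real.log (v.val W.j) = 6 * z := by
    rw [hz, Finset.mul_sum]
    exact Finset.sum_congr rfl fun v _ => by ring
  rw [hz6] at hGs
  have hEI' := hEI K hKD W wf hwf ht hlim ∅ S G (fun v => Real.log (v.val W.j) / 6)
    (fun v hv => absurd hv (Finset.notMem_empty v)) hS
    (fun v hv => by
      have := (hG v hv).1
      push_cast
      simpa using this) k hk0 (by omega)
    (fun i => 2 ^ (i : ℕ) • R) hdist (fun v hv i l hil => by
      refine (hG v hv).2.2 i l ?_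
      exact wd_xRep W (hdist i l hil)) μ hμ0 (fun i => by
      rw [hpow, hμ]
      refine mul_le_mul_of_nonneg_right ?_ (hnn R)
      exact pow_le_pow_right₀ (by norm_num) i.2.le) 0
  rw [Finset.sum_empty, ← hn, ← hJ, ← hz, ← hdd] at hEI'
  have hdHp : 0 < d * H := by positivity
  refine num_2 (a := ε / 24) (δ₁ := 16 * ε / 3) (z := 32 * z) (w := 0) hn2 (by linarith) hC
    hdHp.le (by positivity) (by linarith) hka hJH
    (hHA₂.trans (le_mul_of_one_le_left hH0.le hd1)) (by linarith) rfl ?_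
  refine le_trans (le_of_eq ?_) hEI'
  ring

end Pool.Agent.V5helper58.LA
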