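import Mathlib

/-! Ultrametric estimates for the components of the reduction of a cubic with a node. -/

set_option autoImplicit false

namespace Pool.Agent.V5helper58.LA

variable {F : Type*} [Field F] {w : AbsoluteValue F ℝ}

/-- strict ultrametric equality -/
theorem na_eq (hw : IsNonarchimedean w) {a b : F} (h : w b < w a) : w (a + b) = w a := by
  have h1 : w (a + b) ≤ w a := (hw a b).trans (max_le le_rfl h.le)
  have h2 : w a ≤ max (w (a + b)) (w b) := by
    have h3 := hw (a + b) (-b)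
    rwa [add_neg_cancel_right, w.map_neg] at h3
  rcases le_max_iff.1 h2 with h3 | h3
  · exact le_antisymm h1 h3
  · exact absurd h3 (not_le.2 h)

theorem na_sub_eq (hw : IsNonarchimedean w) {a b : F} (h : w b < w a) : w (a - b) = w a := by
  rw [sub_eq_add_neg]
  exact na_eq hw (by rwa [w.map_neg])

theorem na_sub_eq' (hw : IsNonarchimedean w) {a b : F} (h : w a < w b) : w (a - b) = w b := by
  rw [← w.map_neg, neg_sub]
  exact na_sub_eq hw h

theorem na_add_le (hw : IsNonarchimedean w) {a b : F} {r : ℝ} (ha : w a ≤ r) (hb : w b ≤ r) :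
    w (a + b) ≤ r := (hw a b).trans (max_le ha hb)

theorem na_sub_le (hw : IsNonarchimedean w) {a b : F} {r : ℝ} (ha : w a ≤ r) (hb : w b ≤ r) :
    w (a - b) ≤ r := by
  rw [sub_eq_add_neg]
  exact na_add_le hw ha (by rwa [w.map_neg])

theorem na_add_lt (hw : IsNonarchimedean w) {a b : F} {r : ℝ} (ha : w a < r) (hb : w b < r) :
    w (a + b) < r := (hw a b).trans_lt (max_lt ha hb)

theorem na_sub_lt (hw : IsNonarchimedean w) {a b : F} {r : ℝ} (ha : w a < r) (hb : w b < r) :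
    w (a - b) < r := by
  rw [sub_eq_add_neg]
  exact na_add_lt hw ha (by rwa [w.map_neg])

/-- Gauss's lemma for two linear forms -/
theorem gauss (hw : IsNonarchimedean w) {q u₃ z₃ u₄ z₄ : F} (h0 : 0 < w (u₃ * u₄))
    (h1 : w q ^ 2 * w (z₃ * z₄) ≤ w (u₃ * u₄))
    (h2 : w q * w (u₃ * z₄ + u₄ * z₃) ≤ w (u₃ * u₄)) :
    w q * w z₃ ≤ w u₃ ∧ w q * w z₄ ≤ w u₄ := by
  have key : ∀ u₃ z₃ u₄ z₄ : F, 0 < w (u₃ * u₄) → w q ^ 2 * w (z₃ * z₄) ≤ w (u₃ * u₄) →
      w q * w (u₃ * z₄ + u₄ * z₃) ≤ w (u₃ * u₄) → w q * w z₃ ≤ w u₃ := by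
    intro u₃ z₃ u₄ z₄ h0 h1 h2
    by_contra hcon
    push Not at hcon
    rw [w.map_mul] at h0 h1 h2
    rw [w.map_mul] at h1
    have p3 : 0 ≤ w u₃ := w.nonneg _
    have p4 : 0 ≤ w u₄ := w.nonneg _
    have p4' : 0 < w u₄ := by
      rcases p4.lt_or_eq with h | h
      · exact h
      · rw [← h, mul_zero] at h0
        exact absurd h0 (lt_irrefl _)
    have p3' : 0 < w u₃ := by
      rcases p3.lt_or_eq with h | h
      · exact h
      · rw [← h, zero_mul] at h0
        exact absurd h0 (lt_irrefl _)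
    have pq : 0 < w q := by
      rcases (w.nonneg q).lt_or_eq with h | h
      · exact h
      · rw [← h, zero_mul] at hcon
        linarith
    have e1 : w u₃ * w u₄ < w q * w (u₄ * z₃) := by
      rw [w.map_mul]
      nlinarith
    have e2 : w (u₃ * z₄ + u₄ * z₃) < w (u₄ * z₃) := by
      have : w q * w (u₃ * z₄ + u₄ * z₃) < w q * w (u₄ * z₃) := lt_of_le_of_lt h2 e1
      exact lt_of_mul_lt_mul_left this pq.le
    have e3 : w (u₃ * z₄) = w (u₄ * z₃) := by
      have e4 : u₃ * z₄ = -(u₄ * z₃) + (u₃ * z₄ + u₄ * z₃) := by ring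
      rw [e4, na_eq hw (by rwa [w.map_neg]), w.map_neg]
    rw [w.map_mul, w.map_mul] at e3
    have e5 : w u₄ < w q * w z₄ := by
      have e6 : w u₃ * w u₄ < w q * (w u₃ * w z₄) := by
        rw [w.map_mul] at e1
        rw [e3]
        exact e1
      have e7 : w u₃ * w u₄ < w u₃ * (w q * w z₄) := by
        calc w u₃ * w u₄ < w q * (w u₃ * w z₄) := e6
          _ = w u₃ * (w q * w z₄) := by ring
      exact lt_of_mul_lt_mul_left e7 p3
    have e8 : w u₃ * w u₄ < (w q * w z₃) * (w q * w z₄) :=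
      mul_lt_mul'' hcon e5 p3 p4
    have e9 : (w q * w z₃) * (w q * w z₄) = w q ^ 2 * (w z₃ * w z₄) := by ring
    rw [e9] at e8
    linarith
  refine ⟨key _ _ _ _ h0 h1 h2, key u₄ z₄ u₃ z₃ ?_ ?_ ?_⟩
  · rwa [mul_comm]
  · rwa [mul_comm z₄, mul_comm u₄]
  · rwa [mul_comm u₄ u₃, add_comm]

/-- two elements with nearly equal squares are nearly equal up to the sign -/
theorem near_sq {a r : F} (h : w (a ^ 2 - r ^ 2) < w r ^ 2) :
    w (a - r) < w r ∨ w (a + r) < w r := by
  by_contra hcon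
  push Not at hcon
  have h1 : w (a ^ 2 - r ^ 2) = w (a - r) * w (a + r) := by
    rw [← w.map_mul]; congr 1; ring
  have h2 : w r * w r ≤ w (a - r) * w (a + r) :=
    mul_le_mul hcon.1 hcon.2 (w.nonneg _) (w.nonneg _)
  rw [h1] at h
  nlinarith

end Pool.Agent.V5helper58.LA
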