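import Mathlib
import Pool.Agent.TH942.Par
import Pool.Agent.V5helper58.LA.Gauss

/-! The points with non-singular reduction at a place of (potentially) multiplicative reduction. -/

set_option autoImplicit false

open WeierstrassCurve Pool.Agent.TH942

namespace Pool.Agent.V5helper58.LA

variable {L : Type} [Field L] {Ω : Type} [Field Ω] [Algebra L Ω]

/-- The roots `e₁, e₂, e₃` of `x³ + A x + B`, with `e₁` and `e₃` close to each other. -/
structure Cfg (w : AbsoluteValue Ω ℝ) (A B : L) (e₁ e₂ e₃ : Ω) : Prop where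
  s1 : e₁ + e₂ + e₃ = 0
  s2 : e₁ * e₂ + e₁ * e₃ + e₂ * e₃ = algebraMap L Ω A
  s3 : e₁ * e₂ * e₃ = -algebraMap L Ω B
  lt : w (e₃ - e₁) < w (e₂ - e₁)
  na : IsNonarchimedean w
  two : w 2 = 1
  three : w 3 = 1

variable {w : AbsoluteValue Ω ℝ} {A B : L} {e₁ e₂ e₃ : Ω}

/-- the local coordinate at the node -/
noncomputable def uu (e₁ : Ω) (P : SPt A B) : Ω :=
  algebraMap L Ω (P.xRep 0) - e₁ * algebraMap L Ω (P.xRep 1)

/-- the second coordinate -/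
noncomputable def zz (Ω : Type) [Field Ω] [Algebra L Ω] (P : SPt A B) : Ω :=
  algebraMap L Ω (P.xRep 1)

/-- The point does not reduce to the node. -/
def InZ (w : AbsoluteValue Ω ℝ) (e₁ e₂ : Ω) (P : SPt A B) : Prop :=
  w (e₂ - e₁) * w (zz Ω P) ≤ w (uu e₁ P)

theorem uu_zero : uu e₁ (0 : SPt A B) = 1 := by
  simp [uu, Affine.Point.xRep_zero]

theorem zz_zero : zz Ω (0 : SPt A B) = 0 := by
  simp [zz, Affine.Point.xRep_zero]

theorem uu_some {x y : L} (h : (sw A B).toAffine.Nonsingular x y) :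
    uu e₁ (Affine.Point.some x y h : SPt A B) = algebraMap L Ω x - e₁ := by
  simp [uu, Affine.Point.xRep_some]

theorem zz_some {x y : L} (h : (sw A B).toAffine.Nonsingular x y) :
    zz Ω (Affine.Point.some x y h : SPt A B) = 1 := by
  simp [zz, Affine.Point.xRep_some]

theorem inZ_zero : InZ w e₁ e₂ (0 : SPt A B) := by
  rw [InZ, uu_zero, zz_zero, map_zero, mul_zero]
  exact w.nonneg _

theorem inZ_some {x y : L} (h : (sw A B).toAffine.Nonsingular x y) :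
    InZ w e₁ e₂ (Affine.Point.some x y h : SPt A B) ↔
      w (e₂ - e₁) ≤ w (algebraMap L Ω x - e₁) := by
  rw [InZ, uu_some, zz_some, map_one, mul_one]

theorem uu_ne (P : SPt A B) (h : zz Ω P = 0) : uu e₁ P ≠ 0 := by
  match P with
  | .zero => 
    change uu e₁ (0 : SPt A B) ≠ 0
    rw [uu_zero]; exact one_ne_zero
  | .some x y h' => rw [zz_some] at h; exact absurd h one_ne_zero

theorem Cfg.q_pos (hc : Cfg w A B e₁ e₂ e₃) : 0 < w (e₂ - e₁) :=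
  lt_of_le_of_lt (w.nonneg _) hc.lt

section dec

variable [DecidableEq L] [CharZero L]

/-- the products of the coordinates of `P + Q` and `P - Q` -/
theorem sym (hc : Cfg w A B e₁ e₂ e₃) (hD : 4 * A ^ 3 + 27 * B ^ 2 ≠ 0) (P Q : SPt A B) :
    ∃ c : Ω, c ≠ 0 ∧
      c * (uu e₁ (P + Q) * uu e₁ (P - Q)) =
        (uu e₁ P * uu e₁ Q - (e₂ - e₁) * (e₃ - e₁) * (zz Ω P * zz Ω Q)) ^ 2 ∧
      c * (zz Ω (P + Q) * zz Ω (P - Q)) = (uu e₁ P * zz Ω Q - uu e₁ Q * zz Ω P) ^ 2 ∧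
      c * (uu e₁ (P + Q) * zz Ω (P - Q) + uu e₁ (P - Q) * zz Ω (P + Q)) =
        2 * ((uu e₁ P * zz Ω Q + uu e₁ Q * zz Ω P) *
          (uu e₁ P * uu e₁ Q + (e₂ - e₁) * (e₃ - e₁) * (zz Ω P * zz Ω Q)) -
          2 * ((e₂ - e₁) + (e₃ - e₁)) * (uu e₁ P * uu e₁ Q) * (zz Ω P * zz Ω Q)) := by
  obtain ⟨c, hc0, h⟩ := saddSub_sym2x hD P Q
  have e3 : e₃ = -e₁ - e₂ := by linear_combination hc.s1
  have hA := hc.s2
  have hB := hc.s3
  refine ⟨algebraMap L Ω c, by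
    rw [ne_eq, map_eq_zero_iff _ (algebraMap L Ω).injective]; exact hc0, ?_⟩
  have h2 : P.sym2x Q = ![P.xRep 0 * Q.xRep 0, P.xRep 0 * Q.xRep 1 + P.xRep 1 * Q.xRep 0,
    P.xRep 1 * Q.xRep 1] := rfl
  have h3 : (P + Q).sym2x (P - Q) = ![(P + Q).xRep 0 * (P - Q).xRep 0,
    (P + Q).xRep 0 * (P - Q).xRep 1 + (P + Q).xRep 1 * (P - Q).xRep 0,
    (P + Q).xRep 1 * (P - Q).xRep 1] := rfl
  rw [h2, seval_addSub, h3] at h
  have g0 := congrArg (algebraMap L Ω) (congrFun h 0)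
  have g1 := congrArg (algebraMap L Ω) (congrFun h 1)
  have g2 := congrArg (algebraMap L Ω) (congrFun h 2)
  simp only [Matrix.cons_val_zero, Matrix.cons_val_one, Matrix.cons_val, Pi.smul_apply,
    smul_eq_mul, map_mul, map_add, map_sub, map_pow, map_ofNat] at g0 g1 g2
  rw [← hA] at g0 g1
  have hB' : algebraMap L Ω B = -(e₁ * e₂ * e₃) := by rw [hB, neg_neg]
  rw [hB'] at g0 g1
  simp only [uu, zz]
  generalize algebraMap L Ω (P.xRep 0) = x1 at *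
  generalize algebraMap L Ω (P.xRep 1) = z1 at *
  generalize algebraMap L Ω (Q.xRep 0) = x2 at *
  generalize algebraMap L Ω (Q.xRep 1) = z2 at *
  generalize algebraMap L Ω ((P + Q).xRep 0) = x3 at *
  generalize algebraMap L Ω ((P + Q).xRep 1) = z3 at *
  generalize algebraMap L Ω ((P - Q).xRep 0) = x4 at *
  generalize algebraMap L Ω ((P - Q).xRep 1) = z4 at *
  generalize algebraMap L Ω c = k at *
  subst e3
  refine ⟨?_, ?_, ?_⟩
  · linear_combination -g0 + e₁ * g1 - e₁ ^ 2 * g2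
  · linear_combination -g2
  · linear_combination -g1 + 2 * e₁ * g2

/-- the sum and the difference do not reduce to the node -/
theorem both (hc : Cfg w A B e₁ e₂ e₃) (hD : 4 * A ^ 3 + 27 * B ^ 2 ≠ 0) (P Q : SPt A B) {m : ℝ}
    (hm : 0 < m)
    (h1 : w (uu e₁ P * uu e₁ Q - (e₂ - e₁) * (e₃ - e₁) * (zz Ω P * zz Ω Q)) = m)
    (h2 : w (e₂ - e₁) * w (uu e₁ P * zz Ω Q - uu e₁ Q * zz Ω P) ≤ m)
    (h3 : w (e₂ - e₁) * w (2 * ((uu e₁ P * zz Ω Q + uu e₁ Q * zz Ω P) *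
          (uu e₁ P * uu e₁ Q + (e₂ - e₁) * (e₃ - e₁) * (zz Ω P * zz Ω Q)) -
          2 * ((e₂ - e₁) + (e₃ - e₁)) * (uu e₁ P * uu e₁ Q) * (zz Ω P * zz Ω Q))) ≤ m ^ 2) :
    InZ w e₁ e₂ (P + Q) ∧ InZ w e₁ e₂ (P - Q) := by
  obtain ⟨c, hc0, g1, g2, g3⟩ := sym hc hD P Q
  have wc := w.pos hc0
  have k1 := congrArg w g1
  have k2 := congrArg w g2
  have k3 := congrArg w g3
  rw [w.map_mul c, w.map_pow] at k1 k2
  rw [w.map_mul c] at k3
  rw [h1] at k1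
  have hq := hc.q_pos
  refine gauss hc.na (q := e₂ - e₁) ?_ ?_ ?_
  · by_contra hcon
    have : w (uu e₁ (P + Q) * uu e₁ (P - Q)) = 0 :=
      le_antisymm (not_lt.1 hcon) (w.nonneg _)
    rw [this, mul_zero] at k1
    have : 0 < m ^ 2 := by positivity
    linarith
  · refine le_of_mul_le_mul_left ?_ wc
    rw [k1, mul_left_comm, k2, ← mul_pow]
    exact pow_le_pow_left₀ (by positivity) h2 2
  · refine le_of_mul_le_mul_left ?_ wc
    rw [k1, mul_left_comm, k3]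
    exact h3

/-- **The points that do not reduce to the node form a subgroup.** -/
theorem inZ_both (hc : Cfg w A B e₁ e₂ e₃) (hD : 4 * A ^ 3 + 27 * B ^ 2 ≠ 0) {P Q : SPt A B}
    (hP : InZ w e₁ e₂ P) (hQ : InZ w e₁ e₂ Q) :
    InZ w e₁ e₂ (P + Q) ∧ InZ w e₁ e₂ (P - Q) := by
  have hna := hc.na
  have hq := hc.q_pos
  have hlt := hc.lt
  have htwo := hc.two
  have hP0 := uu_ne (e₁ := e₁) (Ω := Ω) P
  have hQ0 := uu_ne (e₁ := e₁) (Ω := Ω) Q
  unfold InZ at hP hQ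
  set u1 := uu e₁ P
  set u2 := uu e₁ Q
  set z1 := zz Ω P
  set z2 := zz Ω Q
  have u1p : 0 < w u1 := by
    by_cases h : z1 = 0
    · exact w.pos (hP0 h)
    · exact lt_of_lt_of_le (mul_pos hq (w.pos h)) hP
  have u2p : 0 < w u2 := by
    by_cases h : z2 = 0
    · exact w.pos (hQ0 h)
    · exact lt_of_lt_of_le (mul_pos hq (w.pos h)) hQ
  have hz : w (e₂ - e₁) ^ 2 * (w z1 * w z2) ≤ w u1 * w u2 := by
    calc w (e₂ - e₁) ^ 2 * (w z1 * w z2) = (w (e₂ - e₁) * w z1) * (w (e₂ - e₁) * w z2) := by ring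
      _ ≤ w u1 * w u2 := mul_le_mul hP hQ (by positivity) u1p.le
  have hzl : w ((e₂ - e₁) * (e₃ - e₁) * (z1 * z2)) < w (u1 * u2) := by
    rw [w.map_mul, w.map_mul, w.map_mul, w.map_mul]
    by_cases h : w z1 * w z2 = 0
    · rw [h, mul_zero]; positivity
    · have h' : 0 < w z1 * w z2 := lt_of_le_of_ne (by positivity) (Ne.symm h)
      refine lt_of_lt_of_le ?_ hz
      rw [pow_two]
      exact mul_lt_mul_of_pos_right (mul_lt_mul_of_pos_left hlt hq) h'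
  refine both hc hD P Q (m := w u1 * w u2) (by positivity) ?_ ?_ ?_
  · rw [na_sub_eq hna hzl, w.map_mul]
  · have e1 : w (u1 * z2 - u2 * z1) ≤ max (w u1 * w z2) (w u2 * w z1) := by
      refine na_sub_le hna ?_ ?_
      · rw [w.map_mul]; exact le_max_left _ _
      · rw [w.map_mul]; exact le_max_right _ _
    refine (mul_le_mul_of_nonneg_left e1 hq.le).trans ?_
    rw [mul_max_of_nonneg _ _ hq.le]
    refine max_le ?_ ?_
    · calc w (e₂ - e₁) * (w u1 * w z2) = w u1 * (w (e₂ - e₁) * w z2) := by ring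
        _ ≤ w u1 * w u2 := mul_le_mul_of_nonneg_left hQ u1p.le
    · calc w (e₂ - e₁) * (w u2 * w z1) = (w (e₂ - e₁) * w z1) * w u2 := by ring
        _ ≤ w u1 * w u2 := mul_le_mul_of_nonneg_right hP u2p.le
  · rw [w.map_mul, htwo, one_mul, ← w.map_mul, mul_sub]
    refine na_sub_le hna ?_ ?_
    · have e1 : w (e₂ - e₁) * w (u1 * z2 + u2 * z1) ≤ w u1 * w u2 := by
        have e2 : w (u1 * z2 + u2 * z1) ≤ max (w u1 * w z2) (w u2 * w z1) := by
          refine na_add_le hna ?_ ?_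
          · rw [w.map_mul]; exact le_max_left _ _
          · rw [w.map_mul]; exact le_max_right _ _
        refine (mul_le_mul_of_nonneg_left e2 hq.le).trans ?_
        rw [mul_max_of_nonneg _ _ hq.le]
        refine max_le ?_ ?_
        · calc w (e₂ - e₁) * (w u1 * w z2) = w u1 * (w (e₂ - e₁) * w z2) := by ring
            _ ≤ w u1 * w u2 := mul_le_mul_of_nonneg_left hQ u1p.le
        · calc w (e₂ - e₁) * (w u2 * w z1) = (w (e₂ - e₁) * w z1) * w u2 := by ring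
            _ ≤ w u1 * w u2 := mul_le_mul_of_nonneg_right hP u2p.le
      have e3 : w (u1 * u2 + (e₂ - e₁) * (e₃ - e₁) * (z1 * z2)) ≤ w u1 * w u2 := by
        rw [na_eq hna hzl, w.map_mul]
      rw [← mul_assoc, w.map_mul, w.map_mul, pow_two]
      exact mul_le_mul e1 e3 (w.nonneg _) (by positivity)
    · have e4 : w ((e₂ - e₁) + (e₃ - e₁)) ≤ w (e₂ - e₁) := na_add_le hna le_rfl hlt.le
      simp only [w.map_mul, htwo, one_mul]
      calc w (e₂ - e₁) * (w (e₂ - e₁ + (e₃ - e₁)) * (w u1 * w u2) * (w z1 * w z2))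
          ≤ w (e₂ - e₁) * (w (e₂ - e₁) * (w u1 * w u2) * (w z1 * w z2)) := by gcongr
        _ = (w u1 * w u2) * (w (e₂ - e₁) ^ 2 * (w z1 * w z2)) := by ring
        _ ≤ (w u1 * w u2) * (w u1 * w u2) := mul_le_mul_of_nonneg_left hz (by positivity)
        _ = (w u1 * w u2) ^ 2 := by ring

/-- Two points at the far end of the interval of components. -/
theorem deep_both (hc : Cfg w A B e₁ e₂ e₃) (hD : 4 * A ^ 3 + 27 * B ^ 2 ≠ 0)
    (hne : e₃ - e₁ ≠ 0) {P Q : SPt A B} (zP : zz Ω P = 1) (zQ : zz Ω Q = 1)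
    (hP : w (uu e₁ P) ≤ w (e₃ - e₁)) (hQ : w (uu e₁ Q) ≤ w (e₃ - e₁)) :
    InZ w e₁ e₂ (P + Q) ∧ InZ w e₁ e₂ (P - Q) := by
  have hna := hc.na
  have hq := hc.q_pos
  have hlt := hc.lt
  have htwo := hc.two
  have hd : 0 < w (e₃ - e₁) := w.pos hne
  have hlt2 : w (uu e₁ P * uu e₁ Q) < w ((e₂ - e₁) * (e₃ - e₁) * (zz Ω P * zz Ω Q)) := by
    rw [zP, zQ, one_mul, mul_one, w.map_mul, w.map_mul]
    calc w (uu e₁ P) * w (uu e₁ Q) ≤ w (e₃ - e₁) * w (e₃ - e₁) :=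
          mul_le_mul hP hQ (w.nonneg _) hd.le
      _ < w (e₂ - e₁) * w (e₃ - e₁) := mul_lt_mul_of_pos_right hlt hd
  refine both hc hD P Q (m := w (e₂ - e₁) * w (e₃ - e₁)) (by positivity) ?_ ?_ ?_
  · rw [na_sub_eq' hna hlt2, zP, zQ, one_mul, mul_one, w.map_mul]
  · rw [zP, zQ, mul_one, mul_one]
    exact mul_le_mul_of_nonneg_left (na_sub_le hna hP hQ) hq.le
  · rw [w.map_mul 2, htwo, one_mul, zP, zQ, mul_one, mul_one, mul_one, mul_one, mul_one]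
    rw [zP, zQ, mul_one, mul_one] at hlt2
    have e1 : w (uu e₁ P + uu e₁ Q) ≤ w (e₃ - e₁) := na_add_le hna hP hQ
    have e2 : w (uu e₁ P * uu e₁ Q + (e₂ - e₁) * (e₃ - e₁)) ≤ w (e₂ - e₁) * w (e₃ - e₁) := by
      rw [add_comm, na_eq hna hlt2, w.map_mul]
    have e4 : w ((e₂ - e₁) + (e₃ - e₁)) ≤ w (e₂ - e₁) := na_add_le hna le_rfl hlt.le
    have e5 : w (e₂ - e₁) * w ((uu e₁ P + uu e₁ Q) *
        (uu e₁ P * uu e₁ Q + (e₂ - e₁) * (e₃ - e₁))) ≤ (w (e₂ - e₁) * w (e₃ - e₁)) ^ 2 := by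
      rw [w.map_mul]
      calc w (e₂ - e₁) * (w (uu e₁ P + uu e₁ Q) *
            w (uu e₁ P * uu e₁ Q + (e₂ - e₁) * (e₃ - e₁)))
          ≤ w (e₂ - e₁) * (w (e₃ - e₁) * (w (e₂ - e₁) * w (e₃ - e₁))) := by gcongr
        _ = (w (e₂ - e₁) * w (e₃ - e₁)) ^ 2 := by ring
    have e6 : w (e₂ - e₁) * w (2 * ((e₂ - e₁) + (e₃ - e₁)) * (uu e₁ P * uu e₁ Q)) ≤
        (w (e₂ - e₁) * w (e₃ - e₁)) ^ 2 := by
      rw [w.map_mul, w.map_mul, w.map_mul, htwo, one_mul]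
      calc w (e₂ - e₁) * (w (e₂ - e₁ + (e₃ - e₁)) * (w (uu e₁ P) * w (uu e₁ Q)))
          ≤ w (e₂ - e₁) * (w (e₂ - e₁) * (w (e₃ - e₁) * w (e₃ - e₁))) := by gcongr
        _ = (w (e₂ - e₁) * w (e₃ - e₁)) ^ 2 := by ring
    rw [← w.map_mul] at e5 e6 ⊢
    rw [mul_sub]
    exact na_sub_le hna e5 e6

end dec

end Pool.Agent.V5helper58.LA
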