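import Mathlib
import Pool.Agent.V5helper58.LA.Comp

/-! The action of automorphisms on the components at a place of (potentially) multiplicative
reduction. -/

set_option autoImplicit false

open WeierstrassCurve Pool.Agent.TH942

namespace Pool.Agent.V5helper58.LA

variable {L : Type} [Field L] {Ω : Type} [Field Ω] [Algebra L Ω]
  {w : AbsoluteValue Ω ℝ} {A B : L} {e₁ e₂ e₃ : Ω}

/-- the size of the node -/
theorem Cfg.w1 (hc : Cfg w A B e₁ e₂ e₃) : w e₁ = w (e₂ - e₁) := by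
  have h1 : 3 * e₁ = -(e₂ - e₁) - (e₃ - e₁) := by linear_combination hc.s1
  have h2 := congrArg w h1
  rw [w.map_mul, hc.three, one_mul] at h2
  rw [h2, na_sub_eq hc.na (by rw [w.map_neg]; exact hc.lt), w.map_neg]

theorem Cfg.w23 (hc : Cfg w A B e₁ e₂ e₃) : w (e₂ - e₃) = w (e₂ - e₁) := by
  have h1 : e₂ - e₃ = (e₂ - e₁) - (e₃ - e₁) := by ring
  rw [h1, na_sub_eq hc.na hc.lt]

/-- the roots -/
theorem Cfg.root (hc : Cfg w A B e₁ e₂ e₃) {z : Ω}
    (hz : z ^ 3 + algebraMap L Ω A * z + algebraMap L Ω B = 0) : z = e₁ ∨ z = e₂ ∨ z = e₃ := by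
  have h1 : (z - e₁) * ((z - e₂) * (z - e₃)) = 0 := by
    have h2 : algebraMap L Ω B = -(e₁ * e₂ * e₃) := by rw [hc.s3, neg_neg]
    rw [← hc.s2, h2] at hz
    linear_combination hz - z ^ 2 * hc.s1
  rcases mul_eq_zero.1 h1 with h | h
  · exact Or.inl (sub_eq_zero.1 h)
  · rcases mul_eq_zero.1 h with h | h
    · exact Or.inr (Or.inl (sub_eq_zero.1 h))
    · exact Or.inr (Or.inr (sub_eq_zero.1 h))

theorem Cfg.is_root (hc : Cfg w A B e₁ e₂ e₃) :
    (e₁ ^ 3 + algebraMap L Ω A * e₁ + algebraMap L Ω B = 0) ∧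
    (e₂ ^ 3 + algebraMap L Ω A * e₂ + algebraMap L Ω B = 0) ∧
    (e₃ ^ 3 + algebraMap L Ω A * e₃ + algebraMap L Ω B = 0) := by
  have h2 : algebraMap L Ω B = -(e₁ * e₂ * e₃) := by rw [hc.s3, neg_neg]
  rw [← hc.s2, h2]
  refine ⟨?_, ?_, ?_⟩
  · linear_combination e₁ ^ 2 * hc.s1
  · linear_combination e₂ ^ 2 * hc.s1
  · linear_combination e₃ ^ 2 * hc.s1

/-- an automorphism preserving the absolute value fixes the far root and moves the near roots
only a little -/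
theorem Cfg.move (hc : Cfg w A B e₁ e₂ e₃) (hne : e₃ - e₁ ≠ 0) (τ : Ω ≃+* Ω)
    (hτ : ∀ z, w (τ z) = w z) (hA : τ (algebraMap L Ω A) = algebraMap L Ω A)
    (hB : τ (algebraMap L Ω B) = algebraMap L Ω B) :
    w (τ e₁ - e₁) ≤ w (e₃ - e₁) := by
  obtain ⟨r1, r2, r3⟩ := hc.is_root
  have t1 := hc.root (z := τ e₁) (by
    have := congrArg τ r1
    simpa [hA, hB] using this)
  have t3 := hc.root (z := τ e₃) (by
    have := congrArg τ r3
    simpa [hA, hB] using this)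
  have hw : w (τ e₃ - τ e₁) = w (e₃ - e₁) := by rw [← map_sub, hτ]
  have hlt := hc.lt
  rcases t1 with h | h | h
  · rw [h, sub_self, map_zero]; exact w.nonneg _
  · exfalso
    rcases t3 with h' | h' | h'
    · rw [h, h', ← w.map_neg, neg_sub] at hw
      linarith
    · apply hne
      have : τ e₃ = τ e₁ := by rw [h, h']
      rw [sub_eq_zero]
      exact τ.injective this
    · rw [h, h', ← w.map_neg, neg_sub, hc.w23] at hw
      linarith
  · rw [h]

section dec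

variable [DecidableEq L] [CharZero L]

/-- **Two points on the same side of the node.** -/
theorem same_side (hc : Cfg w A B e₁ e₂ e₃) (hD : 4 * A ^ 3 + 27 * B ^ 2 ≠ 0) {r : Ω}
    (hr : r ^ 2 = e₁ - e₂) {x y x' y' : L} (h : (sw A B).toAffine.Nonsingular x y)
    (h' : (sw A B).toAffine.Nonsingular x' y') {ρ : ℝ}
    (hρ : w (algebraMap L Ω x - e₁) = ρ) (hρ' : w (algebraMap L Ω x' - e₁) = ρ)
    (hδ : w (e₃ - e₁) < ρ) (hρq : ρ < w (e₂ - e₁)) {α α' : Ω}
    (hα : algebraMap L Ω y = α * (algebraMap L Ω x - e₁))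
    (hα' : algebraMap L Ω y' = α' * (algebraMap L Ω x' - e₁))
    (hαr : w (α - r) < w r) (hαr' : w (α' - r) < w r) :
    InZ w e₁ e₂ (Affine.Point.some x y h - Affine.Point.some x' y' h' : SPt A B) := by
  have hna := hc.na
  have hq := hc.q_pos
  have hρ0 : 0 < ρ := lt_of_le_of_lt (w.nonneg _) hδ
  have hrq : w r ^ 2 = w (e₂ - e₁) := by
    rw [← w.map_pow, hr, ← w.map_neg, neg_sub]
  have hr0 : 0 < w r := by
    rcases (w.nonneg r).lt_or_eq with h | h
    · exact h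
    · rw [← h] at hrq; nlinarith
  have E := sw_eqn.1 h.1
  have E' := sw_eqn.1 h'.1
  have hns : (sw A B).toAffine.Nonsingular x' (-y') := sw_nonsing hD (by rw [← E']; ring)
  have h4 : w (4 : Ω) = 1 := by
    rw [show (4 : Ω) = 2 * 2 by norm_num, w.map_mul, hc.two, one_mul]
  rw [sub_eq_add_neg, sneg_mk h' hns]
  by_cases hx : x = x'
  · -- the same abscissa
    subst hx
    have h1 : (y - y') * (y + y') = 0 := by linear_combination E - E'
    rcases mul_eq_zero.1 h1 with h2 | h2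
    · have h3 : y' = y := (sub_eq_zero.1 h2).symm
      subst h3
      have h4 : (Affine.Point.some x y' h : SPt A B) + Affine.Point.some x (-y') hns = 0 := by
        rw [← sneg_mk h hns, add_neg_cancel]
      rw [h4]
      exact inZ_zero
    · exfalso
      have h3 : y' = -y := by linear_combination h2
      have hU : algebraMap L Ω x - e₁ ≠ 0 := by
        intro h0
        rw [h0, map_zero] at hρ
        linarith
      have h5 : α' = -α := by
        apply mul_right_cancel₀ hU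
        rw [← hα', h3, map_neg, hα]
        ring
      have h6 : w (2 * r) < w r := by
        have h7 : 2 * r = -(α - r) - (α' - r) := by rw [h5]; ring
        rw [h7]
        exact na_sub_lt hna (by rwa [w.map_neg]) hαr'
      rw [w.map_mul, hc.two, one_mul] at h6
      exact lt_irrefl _ h6
  · have hrep := sxRep_add h hns hx
    have hx' : x - x' ≠ 0 := sub_ne_zero.2 hx
    set U := algebraMap L Ω x - e₁ with hU
    set U' := algebraMap L Ω x' - e₁ with hU'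
    have hUU : U - U' ≠ 0 := by
      intro h0
      apply hx
      apply (algebraMap L Ω).injective
      rw [hU, hU'] at h0
      linear_combination h0
    -- the abscissa of the difference
    have hval : uu e₁ (Affine.Point.some x y h + Affine.Point.some x' (-y') hns : SPt A B) =
        ((α * U + α' * U') ^ 2 + (e₂ - e₁) * (U - U') ^ 2) / (U - U') ^ 2 +
          ((e₃ - e₁) - U - U') := by
      have e1 : uu e₁ (Affine.Point.some x y h + Affine.Point.some x' (-y') hns : SPt A B) =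
          algebraMap L Ω (snum A B x x' (y * -y') / (x - x') ^ 2) - e₁ := by
        rw [uu, hrep]
        simp
      have e2 : snum A B x x' (y * -y') = (y + y') ^ 2 - (x + x') * (x - x') ^ 2 := by
        unfold snum
        linear_combination -E - E'
      have e3 : algebraMap L Ω (x - x') = U - U' := by rw [map_sub, hU, hU']; ring
      rw [e1, e2, map_div₀, map_sub, map_mul, map_pow, map_pow, e3, map_add, map_add, hα, hα']
      have e4 : algebraMap L Ω x = U + e₁ := by rw [hU]; ring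
      have e5 : algebraMap L Ω x' = U' + e₁ := by rw [hU']; ring
      rw [e4, e5]
      field_simp
      linear_combination (-(U - U') ^ 2) * hc.s1
    have hz : zz Ω (Affine.Point.some x y h + Affine.Point.some x' (-y') hns : SPt A B) = 1 := by
      rw [zz, hrep]
      simp
    rw [InZ, hval, hz, map_one, mul_one]
    -- the main term
    obtain ⟨Er, hEr⟩ : ∃ Er, Er = (α - r) * U + (α' - r) * U' := ⟨_, rfl⟩
    have hErl : w Er < w r * ρ := by
      rw [hEr]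
      refine na_add_lt hna ?_ ?_
      · rw [w.map_mul, hρ]; exact mul_lt_mul_of_pos_right hαr hρ0
      · rw [w.map_mul, hρ']; exact mul_lt_mul_of_pos_right hαr' hρ0
    have hnum : (α * U + α' * U') ^ 2 + (e₂ - e₁) * (U - U') ^ 2 =
        r ^ 2 * (4 * (U * U')) + (2 * r * (U + U') * Er + Er ^ 2) := by
      have e6 : e₂ - e₁ = -r ^ 2 := by rw [hr]; ring
      rw [e6, hEr]
      ring
    have hmain : w (r ^ 2 * (4 * (U * U'))) = w r ^ 2 * ρ ^ 2 := by
      rw [w.map_mul, w.map_mul, w.map_mul, w.map_pow, h4, hρ, hρ']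
      ring
    have herr : w (2 * r * (U + U') * Er + Er ^ 2) < w r ^ 2 * ρ ^ 2 := by
      refine na_add_lt hna ?_ ?_
      · rw [w.map_mul, w.map_mul, w.map_mul, hc.two, one_mul]
        have e7 : w (U + U') ≤ ρ := na_add_le hna hρ.le hρ'.le
        calc w r * w (U + U') * w Er ≤ w r * ρ * w Er := by gcongr
          _ < w r * ρ * (w r * ρ) := mul_lt_mul_of_pos_left hErl (by positivity)
          _ = w r ^ 2 * ρ ^ 2 := by ring
      · rw [w.map_pow]
        calc w Er ^ 2 < (w r * ρ) ^ 2 := pow_lt_pow_left₀ hErl (w.nonneg _) two_ne_zero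
          _ = w r ^ 2 * ρ ^ 2 := by ring
    have hnw : w ((α * U + α' * U') ^ 2 + (e₂ - e₁) * (U - U') ^ 2) = w r ^ 2 * ρ ^ 2 := by
      rw [hnum, na_eq hna (by rw [hmain]; exact herr), hmain]
    have hd : w (U - U') ≤ ρ := na_sub_le hna hρ.le hρ'.le
    have hd0 : 0 < w (U - U') := w.pos hUU
    have hbig : w (e₂ - e₁) ≤
        w (((α * U + α' * U') ^ 2 + (e₂ - e₁) * (U - U') ^ 2) / (U - U') ^ 2) := by
      rw [map_div₀, hnw, w.map_pow, le_div_iff₀ (by positivity), ← hrq]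
      exact mul_le_mul_of_nonneg_left (pow_le_pow_left₀ hd0.le hd 2) (by positivity)
    have hsmall : w ((e₃ - e₁) - U - U') < w (e₂ - e₁) :=
      na_sub_lt hna (na_sub_lt hna hc.lt (by rw [hρ]; exact hρq)) (by rw [hρ']; exact hρq)
    rw [na_eq hna (lt_of_lt_of_le hsmall hbig)]
    exact hbig

/-- the sign of the square root of `-2AB` is the sign of the slope at the node -/
theorem sign_s (hc : Cfg w A B e₁ e₂ e₃) {s r : Ω}
    (hs : s ^ 2 = algebraMap L Ω (-2 * A * B)) (hr : r ^ 2 = e₁ - e₂) :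
    w (s - 2 * r * e₁ ^ 2) < w r * w e₁ ^ 2 ∨ w (s + 2 * r * e₁ ^ 2) < w r * w e₁ ^ 2 := by
  have hna := hc.na
  have hq := hc.q_pos
  have h1 := hc.w1
  have hrq : w r ^ 2 = w (e₂ - e₁) := by
    rw [← w.map_pow, hr, ← w.map_neg, neg_sub]
  have he0 : 0 < w e₁ := by rw [h1]; exact hq
  have hlt : w (e₃ - e₁) < w e₁ := by rw [h1]; exact hc.lt
  have hwr : w (2 * r * e₁ ^ 2) = w r * w e₁ ^ 2 := by
    rw [w.map_mul, w.map_mul, w.map_pow, hc.two, one_mul]
  rw [← hwr]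
  apply near_sq
  obtain ⟨δ, hδ⟩ : ∃ δ, δ = e₃ - e₁ := ⟨_, rfl⟩
  rw [← hδ] at hlt
  have e3 : e₃ = e₁ + δ := by rw [hδ]; ring
  have e2 : e₂ = -2 * e₁ - δ := by linear_combination hc.s1 - e3
  have hB : algebraMap L Ω B = -(e₁ * e₂ * e₃) := by rw [hc.s3, neg_neg]
  have key : s ^ 2 - (2 * r * e₁ ^ 2) ^ 2 =
      δ * (2 * (3 * (3 * e₁ ^ 4)) + 2 * (2 * (3 * (e₁ ^ 4))) - 4 * e₁ ^ 4 +
        δ * (2 * (3 * (e₁ ^ 3)) + 2 * (3 * (3 * (e₁ ^ 3))) + 2 * (2 * (e₁ ^ 3)) +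
        δ * (2 * (3 * e₁ ^ 2) + 2 * (3 * e₁ ^ 2) + δ * (2 * e₁)))) := by
    have h5 : (2 * r * e₁ ^ 2) ^ 2 = 4 * r ^ 2 * e₁ ^ 4 := by ring
    rw [hs, h5, hr, map_mul, map_mul, map_neg, map_ofNat, ← hc.s2, hB, e3, e2]
    ring
  rw [key, w.map_mul, w.map_mul, w.map_mul, hc.two, one_mul, w.map_pow, mul_pow, hrq, ← h1]
  have hint : ∀ n : ℕ, w (n : Ω) ≤ 1 := fun n => hna.apply_natCast_le_one
  have i2 : w (2 : Ω) ≤ 1 := hc.two.le
  have i3 : w (3 : Ω) ≤ 1 := hc.three.le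
  have i4 : w (4 : Ω) ≤ 1 := by exact_mod_cast hint 4
  have m : ∀ (a b : Ω) (R : ℝ), w a ≤ 1 → w b ≤ R → 0 ≤ R → w (a * b) ≤ R := by
    intro a b R ha hb hR
    rw [w.map_mul]
    calc w a * w b ≤ 1 * R := mul_le_mul ha hb (w.nonneg _) zero_le_one
      _ = R := one_mul R
  have p4 : w (e₁ ^ 4) ≤ w e₁ ^ 4 := by rw [w.map_pow]
  have p3 : w (e₁ ^ 3) ≤ w e₁ ^ 3 := by rw [w.map_pow]
  have p2 : w (e₁ ^ 2) ≤ w e₁ ^ 2 := by rw [w.map_pow]
  have q4 : 0 ≤ w e₁ ^ 4 := by positivity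
  have q3 : 0 ≤ w e₁ ^ 3 := by positivity
  have q2 : 0 ≤ w e₁ ^ 2 := by positivity
  have d1 : w (δ * (2 * e₁)) ≤ w e₁ ^ 2 := by
    rw [w.map_mul, w.map_mul, hc.two, one_mul, pow_two]
    exact mul_le_mul_of_nonneg_right hlt.le he0.le
  have d2 : w (δ * (2 * (3 * e₁ ^ 2) + 2 * (3 * e₁ ^ 2) + δ * (2 * e₁))) ≤ w e₁ ^ 3 := by
    rw [w.map_mul, show w e₁ ^ 3 = w e₁ * w e₁ ^ 2 by ring]
    refine mul_le_mul hlt.le ?_ (w.nonneg _) he0.le
    exact na_add_le hna (na_add_le hna (m _ _ _ i2 (m _ _ _ i3 p2 q2) q2)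
      (m _ _ _ i2 (m _ _ _ i3 p2 q2) q2)) d1
  have d3 : w (δ * (2 * (3 * (e₁ ^ 3)) + 2 * (3 * (3 * (e₁ ^ 3))) + 2 * (2 * (e₁ ^ 3)) +
        δ * (2 * (3 * e₁ ^ 2) + 2 * (3 * e₁ ^ 2) + δ * (2 * e₁)))) ≤ w e₁ ^ 4 := by
    rw [w.map_mul, show w e₁ ^ 4 = w e₁ * w e₁ ^ 3 by ring]
    refine mul_le_mul hlt.le ?_ (w.nonneg _) he0.le
    exact na_add_le hna (na_add_le hna (na_add_le hna (m _ _ _ i2 (m _ _ _ i3 p3 q3) q3)
      (m _ _ _ i2 (m _ _ _ i3 (m _ _ _ i3 p3 q3) q3) q3))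
      (m _ _ _ i2 (m _ _ _ i2 p3 q3) q3)) d2
  have d4 : w (2 * (3 * (3 * e₁ ^ 4)) + 2 * (2 * (3 * (e₁ ^ 4))) - 4 * e₁ ^ 4 +
        δ * (2 * (3 * (e₁ ^ 3)) + 2 * (3 * (3 * (e₁ ^ 3))) + 2 * (2 * (e₁ ^ 3)) +
        δ * (2 * (3 * e₁ ^ 2) + 2 * (3 * e₁ ^ 2) + δ * (2 * e₁)))) ≤ w e₁ ^ 4 :=
    na_add_le hna (na_sub_le hna (na_add_le hna (m _ _ _ i2 (m _ _ _ i3 (m _ _ _ i3 p4 q4) q4) q4)
      (m _ _ _ i2 (m _ _ _ i2 (m _ _ _ i3 p4 q4) q4) q4)) (m _ _ _ i4 p4 q4)) d3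
  calc w δ * w _ ≤ w δ * w e₁ ^ 4 := mul_le_mul_of_nonneg_left d4 (w.nonneg _)
    _ < w e₁ * w e₁ ^ 4 := mul_lt_mul_of_pos_right hlt (by positivity)
    _ = w e₁ * (w e₁ ^ 2) ^ 2 := by ring

end dec

end Pool.Agent.V5helper58.LA
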