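import Mathlib
import Pool.Agent.V5helper58.LA.Slope

/-! Automorphisms preserving the place act by a sign on the group of components. -/

set_option autoImplicit false
set_option linter.unusedSectionVars false

open WeierstrassCurve Pool.Agent.TH942

namespace Pool.Agent.V5helper58.LA

variable {L : Type} [Field L] {Ω : Type} [Field Ω] [Algebra L Ω]
  {w : AbsoluteValue Ω ℝ} {A B : L} {e₁ e₂ e₃ : Ω} [DecidableEq L] [CharZero L]

/-- **The sign.** -/
theorem act (hc : Cfg w A B e₁ e₂ e₃) (hD : 4 * A ^ 3 + 27 * B ^ 2 ≠ 0) (hne : e₃ - e₁ ≠ 0)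
    (τ : Ω ≃+* Ω) (hτ : ∀ z, w (τ z) = w z) (hA : τ (algebraMap L Ω A) = algebraMap L Ω A)
    (hB : τ (algebraMap L Ω B) = algebraMap L Ω B) {s : Ω}
    (hs : s ^ 2 = algebraMap L Ω (-2 * A * B)) {ε : ℤ} (hε : ε = 1 ∨ ε = -1)
    (hτs : τ s = ε * s) {r : Ω} (hr : r ^ 2 = e₁ - e₂) {x y x' y' : L}
    (h : (sw A B).toAffine.Nonsingular x y) (h' : (sw A B).toAffine.Nonsingular x' y')
    (hx : algebraMap L Ω x' = τ (algebraMap L Ω x))
    (hy : algebraMap L Ω y' = τ (algebraMap L Ω y)) :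
    InZ w e₁ e₂ ((Affine.Point.some x y h : SPt A B) - ε • Affine.Point.some x' y' h') := by
  have hna := hc.na
  have hq := hc.q_pos
  have hmove := hc.move hne τ hτ hA hB
  have hlt := hc.lt
  have hw1 := hc.w1
  have hd : 0 < w (e₃ - e₁) := w.pos hne
  have he0 : 0 < w e₁ := by rw [hw1]; exact hq
  -- it is enough to control the sum and the difference
  have hboth : (InZ w e₁ e₂ ((Affine.Point.some x y h : SPt A B) + Affine.Point.some x' y' h') ∧
      InZ w e₁ e₂ ((Affine.Point.some x y h : SPt A B) - Affine.Point.some x' y' h')) →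
      InZ w e₁ e₂ ((Affine.Point.some x y h : SPt A B) - ε • Affine.Point.some x' y' h') := by
    rintro ⟨h1, h2⟩
    rcases hε with h3 | h3
    · rw [h3, one_smul]; exact h2
    · rw [h3, neg_smul, one_smul, sub_neg_eq_add]; exact h1
  set U := algebraMap L Ω x - e₁ with hU
  set U' := algebraMap L Ω x' - e₁ with hU'
  have hU'τ : U' = τ U + (τ e₁ - e₁) := by rw [hU', hU, map_sub, hx]; ring
  have hτU : w (τ U) = w U := hτ U
  rcases le_or_gt (w (e₂ - e₁)) (w U) with c1 | c1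
  · -- the point does not reduce to the node
    apply hboth
    have hU'' : w U' = w U := by
      rw [hU'τ, na_eq hna (by rw [hτU]; linarith), hτU]
    exact inZ_both hc hD ((inZ_some h).2 c1) ((inZ_some h').2 (by rw [← hU', hU'']; exact c1))
  rcases le_or_gt (w U) (w (e₃ - e₁)) with c2 | c2
  · -- the deep case
    apply hboth
    refine deep_both hc hD hne (zz_some h) (zz_some h') ?_ ?_
    · rw [uu_some]; exact c2
    · rw [uu_some, ← hU', hU'τ]
      exact na_add_le hna (by rw [hτU]; exact c2) hmove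
  · -- the slopes
    have hU'' : w U' = w U := by
      rw [hU'τ, na_eq hna (by rw [hτU]; linarith), hτU]
    have hU0 : U ≠ 0 := by
      intro h0
      rw [h0, map_zero] at c2
      linarith
    have hU0' : U' ≠ 0 := by
      intro h0
      rw [h0, map_zero] at hU''
      rw [← hU''] at c2
      linarith
    have hrq : w r ^ 2 = w (e₂ - e₁) := by
      rw [← w.map_pow, hr, ← w.map_neg, neg_sub]
    have hr0 : 0 < w r := by
      rcases (w.nonneg r).lt_or_eq with h | h
      · exact h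
      · rw [← h] at hrq; nlinarith
    -- the sign of the square root
    obtain ⟨r₁, hr₁, hs₁⟩ : ∃ r₁ : Ω, r₁ ^ 2 = e₁ - e₂ ∧ w (s - 2 * r₁ * e₁ ^ 2) < w r₁ * w e₁ ^ 2 := by
      rcases sign_s hc hs hr with h1 | h1
      · exact ⟨r, hr, h1⟩
      · refine ⟨-r, by rw [neg_pow_two]; exact hr, ?_⟩
        rw [w.map_neg]
        have : s - 2 * -r * e₁ ^ 2 = s + 2 * r * e₁ ^ 2 := by ring
        rw [this]
        exact h1
    have hrq₁ : w r₁ ^ 2 = w (e₂ - e₁) := by
      rw [← w.map_pow, hr₁, ← w.map_neg, neg_sub]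
    have hr₁0 : 0 < w r₁ := by
      rcases (w.nonneg r₁).lt_or_eq with h | h
      · exact h
      · rw [← h] at hrq₁; nlinarith
    have hwε : w ((ε : ℤ) : Ω) = 1 := by
      rcases hε with h3 | h3 <;> simp [h3]
    have hε2 : ((ε : ℤ) : Ω) * ε = 1 := by
      rcases hε with h3 | h3 <;> simp [h3]
    have hτr : w (τ r₁ - ε * r₁) < w r₁ := by
      have k1 : w (ε * s - 2 * τ r₁ * τ e₁ ^ 2) < w r₁ * w e₁ ^ 2 := by
        have := hτ (s - 2 * r₁ * e₁ ^ 2)
        rw [map_sub, map_mul, map_mul, map_pow, hτs, map_ofNat] at this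
        rw [this]
        exact hs₁
      have k2 : w (2 * τ r₁ * (τ e₁ ^ 2 - e₁ ^ 2)) < w r₁ * w e₁ ^ 2 := by
        have k3 : τ e₁ ^ 2 - e₁ ^ 2 = (τ e₁ - e₁) * (τ e₁ + e₁) := by ring
        rw [w.map_mul, w.map_mul, hc.two, one_mul, hτ, k3, w.map_mul]
        refine mul_lt_mul_of_pos_left ?_ hr₁0
        have k4 : w (τ e₁ + e₁) ≤ w e₁ := na_add_le hna (hτ _).le le_rfl
        calc w (τ e₁ - e₁) * w (τ e₁ + e₁) ≤ w (e₃ - e₁) * w e₁ :=
              mul_le_mul hmove k4 (w.nonneg _) hd.le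
          _ < w e₁ * w e₁ := mul_lt_mul_of_pos_right (by rw [hw1]; exact hlt) he0
          _ = w e₁ ^ 2 := by ring
      have k5 : w (ε * (s - 2 * r₁ * e₁ ^ 2)) < w r₁ * w e₁ ^ 2 := by
        rw [w.map_mul, hwε, one_mul]; exact hs₁
      have k6 : w (2 * e₁ ^ 2 * (τ r₁ - ε * r₁)) < w r₁ * w e₁ ^ 2 := by
        have k7 : 2 * e₁ ^ 2 * (τ r₁ - ε * r₁) = ε * (s - 2 * r₁ * e₁ ^ 2) -
            (ε * s - 2 * τ r₁ * τ e₁ ^ 2) - 2 * τ r₁ * (τ e₁ ^ 2 - e₁ ^ 2) := by ring
        rw [k7]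
        exact na_sub_lt hna (na_sub_lt hna k5 k1) k2
      rw [w.map_mul, w.map_mul, hc.two, one_mul, w.map_pow, mul_comm (w r₁)] at k6
      exact lt_of_mul_lt_mul_left k6 (by positivity)
    -- the slope of the point
    obtain ⟨α, hα⟩ : ∃ α, α = algebraMap L Ω y / U := ⟨_, rfl⟩
    have hαy : algebraMap L Ω y = α * U := by rw [hα]; field_simp
    have hcurve : algebraMap L Ω y ^ 2 = U * ((U + e₁ - e₂) * (U + e₁ - e₃)) := by
      have E := congrArg (algebraMap L Ω) (sw_eqn.1 h.1)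
      have e4 : algebraMap L Ω x = U + e₁ := by rw [hU]; ring
      have h2 : algebraMap L Ω B = -(e₁ * e₂ * e₃) := by rw [hc.s3, neg_neg]
      rw [map_pow, map_add, map_add, map_pow, map_mul, e4, ← hc.s2, h2] at E
      linear_combination E + (U + e₁) ^ 2 * hc.s1
    have hα2 : w (α ^ 2 - r₁ ^ 2) < w r₁ ^ 2 := by
      have k1 : U * (α ^ 2 - r₁ ^ 2) = U * U + U * (e₁ - e₃) + (e₁ - e₂) * (e₁ - e₃) := by
        have k2 : U ^ 2 * α ^ 2 = algebraMap L Ω y ^ 2 := by rw [hαy]; ring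
        apply mul_left_cancel₀ hU0
        rw [hr₁]
        linear_combination k2 + hcurve
      have k3 : w (U * U) < w U * w (e₂ - e₁) := by
        rw [w.map_mul]; exact mul_lt_mul_of_pos_left c1 (by linarith)
      have k4 : w (U * (e₁ - e₃)) < w U * w (e₂ - e₁) := by
        rw [w.map_mul, ← w.map_neg (e₁ - e₃), neg_sub]
        exact mul_lt_mul_of_pos_left hlt (by linarith)
      have k5 : w ((e₁ - e₂) * (e₁ - e₃)) < w U * w (e₂ - e₁) := by
        rw [w.map_mul, ← w.map_neg (e₁ - e₃), neg_sub, ← w.map_neg (e₁ - e₂), neg_sub,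
          mul_comm]
        exact mul_lt_mul_of_pos_right c2 hq
      have k6 : w (U * (α ^ 2 - r₁ ^ 2)) < w U * w (e₂ - e₁) := by
        rw [k1]
        exact na_add_lt hna (na_add_lt hna k3 k4) k5
      rw [w.map_mul, ← hrq₁] at k6
      exact lt_of_mul_lt_mul_left k6 (w.nonneg _)
    -- the sign of the slope
    obtain ⟨r₂, κ, hκ, hr₂, hαr₂⟩ : ∃ (r₂ : Ω) (κ : ℤ), (κ = 1 ∨ κ = -1) ∧ r₂ = κ * r₁ ∧
        w (α - r₂) < w r₂ := by
      rcases near_sq hα2 with h1 | h1
      · exact ⟨r₁, 1, Or.inl rfl, by simp, h1⟩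
      · exact ⟨-r₁, -1, Or.inr rfl, by simp, by rw [w.map_neg, sub_neg_eq_add]; exact h1⟩
    have hwκ : w ((κ : ℤ) : Ω) = 1 := by
      rcases hκ with h3 | h3 <;> simp [h3]
    have hr₂2 : r₂ ^ 2 = e₁ - e₂ := by
      rw [hr₂, mul_pow, hr₁]
      rcases hκ with h3 | h3 <;> simp [h3]
    have hwr₂ : w r₂ = w r₁ := by rw [hr₂, w.map_mul, hwκ, one_mul]
    have hwα : w α = w r₁ := by
      have h1 : α = r₂ + (α - r₂) := by ring
      rw [h1, na_eq hna hαr₂, hwr₂]
    have hτr₂ : w (τ r₂ - ε * r₂) < w r₂ := by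
      have h1 : τ r₂ - ε * r₂ = κ * (τ r₁ - ε * r₁) := by
        rw [hr₂, map_mul, map_intCast]; ring
      rw [h1, w.map_mul, hwκ, one_mul, hwr₂]
      exact hτr
    -- the slope of the image
    obtain ⟨α', hα'⟩ : ∃ α', α' = algebraMap L Ω y' / U' := ⟨_, rfl⟩
    have hαy' : algebraMap L Ω y' = α' * U' := by rw [hα']; field_simp
    have hα'α : w (α' - τ α) < w r₂ := by
      have h1 : U' * (α' - τ α) = -(τ α * (τ e₁ - e₁)) := by
        have h2 : algebraMap L Ω y' = τ α * τ U := by rw [hy, hαy, map_mul]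
        have h3 : α' * U' = τ α * τ U := by rw [← hαy', h2]
        have h4 : τ U = U' - (τ e₁ - e₁) := by rw [hU'τ]; ring
        rw [h4] at h3
        linear_combination h3
      have h2 := congrArg w h1
      rw [w.map_mul, w.map_neg, w.map_mul, hτ, hwα, hU''] at h2
      have h3 : w U * w (α' - τ α) < w U * w r₂ := by
        rw [h2, hwr₂, mul_comm]
        exact mul_lt_mul_of_pos_right (lt_of_le_of_lt hmove c2) hr₁0
      exact lt_of_mul_lt_mul_left h3 (w.nonneg _)
    have hα'r : w (α' - ε * r₂) < w r₂ := by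
      have h1 : α' - ε * r₂ = (α' - τ α) + (τ (α - r₂) + (τ r₂ - ε * r₂)) := by
        rw [map_sub]; ring
      rw [h1]
      exact na_add_lt hna hα'α (na_add_lt hna (by rw [hτ]; exact hαr₂) hτr₂)
    rcases hε with h3 | h3
    · subst h3
      rw [one_smul]
      refine same_side hc hD hr₂2 h h' rfl (by rw [← hU', hU'']) c2 c1 hαy hαy' hαr₂ ?_
      simpa using hα'r
    · subst h3
      have hns : (sw A B).toAffine.Nonsingular x' (-y') := sw_nonsing hD (by
        rw [← sw_eqn.1 h'.1]; ring)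
      rw [neg_smul, one_smul, sneg_mk h' hns]
      refine same_side hc hD hr₂2 h hns rfl (by rw [← hU', hU'']) c2 c1 hαy (α' := -α') ?_ hαr₂ ?_
      · rw [map_neg, hαy']; ring
      · have h4 : -α' - r₂ = -(α' - ((-1 : ℤ) : Ω) * r₂) := by push_cast; ring
        rw [h4, w.map_neg]
        exact hα'r

end Pool.Agent.V5helper58.LA
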