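import Mathlib
import Pool.Agent.TH910.LS.Final
import Pool.Agent.V5helper58.LA.Act

/-! The decomposition group acts on the components of the coordinates by a sign. -/

set_option autoImplicit false
set_option linter.unusedSectionVars false

open NumberField Matrix WeierstrassCurve
open Pool.Agent.TH942 Pool.Agent.TH910.LS

namespace Pool.Agent.V5helper58.LA

section sub

variable {L : Type} [Field L] {Ω : Type} [Field Ω] [Algebra L Ω]
  {w : AbsoluteValue Ω ℝ} {A B : L} {e₁ e₂ e₃ : Ω} [DecidableEq L] [CharZero L]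

/-- the subgroup of the points that do not reduce to the node -/
def E0 (hc : Cfg w A B e₁ e₂ e₃) (hD : 4 * A ^ 3 + 27 * B ^ 2 ≠ 0) : AddSubgroup (SPt A B) where
  carrier := {P | InZ w e₁ e₂ P}
  zero_mem' := inZ_zero
  add_mem' := fun hP hQ => (inZ_both hc hD hP hQ).1
  neg_mem' := fun {P} hP => by
    have := (inZ_both hc hD (inZ_zero (w := w) (A := A) (B := B) (e₁ := e₁) (e₂ := e₂)) hP).2
    rwa [zero_sub] at this

end sub

section form

variable {K : Type} [Field K] [NumberField K] {L : Type} [Field L] [NumberField L] [Algebra K L]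
  [DecidableEq L] {a b : K} {g : ℕ}

/-- **The action on the components.** -/
theorem comp_act (hab : 4 * (algebraMap K L a) ^ 3 + 27 * (algebraMap K L b) ^ 2 ≠ 0)
    {u : AbsoluteValue (AlgebraicClosure L) ℝ} {s : AlgebraicClosure L}
    (hs : s ^ 2 = algebraMap L (AlgebraicClosure L) (algebraMap K L (-2 * a * b)))
    {τ : AlgebraicClosure L ≃+* AlgebraicClosure L} {σ : L ≃ₐ[K] L} {ε : ℤ}
    (h1 : ∀ z, u (τ z) = u z)
    (h2 : ∀ x : L, τ (algebraMap L (AlgebraicClosure L) x) =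
      algebraMap L (AlgebraicClosure L) (σ x)) (hε : ε = 1 ∨ ε = -1) (h3 : τ s = ε * s)
    {e₁ e₂ e₃ : AlgebraicClosure L}
    (hc : Cfg u (algebraMap K L a) (algebraMap K L b) e₁ e₂ e₃) (hne : e₃ - e₁ ≠ 0)
    (R : SPt (algebraMap K L a) (algebraMap K L b)) :
    gal σ R - ε • R ∈ E0 hc hab := by
  obtain ⟨r, hr⟩ := IsAlgClosed.exists_pow_nat_eq (e₁ - e₂) (n := 2) (by norm_num)
  have hs' : s ^ 2 = algebraMap L (AlgebraicClosure L)
      (-2 * algebraMap K L a * algebraMap K L b) := by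
    have h1 : algebraMap K L (-2 * a * b) = -2 * algebraMap K L a * algebraMap K L b := by
      rw [map_mul, map_mul, map_neg, map_ofNat]
    rw [hs, h1]
  have hfix : ∀ z : K, τ (algebraMap L (AlgebraicClosure L) (algebraMap K L z)) =
      algebraMap L (AlgebraicClosure L) (algebraMap K L z) := by
    intro z
    rw [h2, AlgEquiv.commutes]
  have h4 : R - ε • gal σ R ∈ E0 hc hab := by
    match R with
    | .zero =>
      have : (Affine.Point.zero : SPt (algebraMap K L a) (algebraMap K L b)) -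
          ε • gal σ Affine.Point.zero = 0 := by
        change (0 : SPt (algebraMap K L a) (algebraMap K L b)) - ε • 0 = 0
        rw [smul_zero, sub_zero]
      rw [this]
      exact AddSubgroup.zero_mem _
    | .some x y h =>
      exact act hc hab hne τ h1 (hfix a) (hfix b) hs' hε h3 hr h (gal_ns σ h)
        (h2 x).symm (h2 y).symm
  have h5 := AddSubgroup.zsmul_mem _ h4 (-ε)
  have h6 : -ε • (R - ε • gal σ R) = gal σ R - ε • R := by
    have h7 : ε * ε = 1 := by
      rcases hε with h | h <;> rw [h] <;> norm_num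
    rw [smul_sub, smul_smul, neg_mul, h7, neg_smul, neg_smul, one_smul]
    abel
  rwa [h6] at h5

/-- the point `P - ε ρ(σ) P` -/
def moved (ρ : (L ≃ₐ[K] L) →* Matrix (Fin g) (Fin g) ℤ)
    (P : Fin g → SPt (algebraMap K L a) (algebraMap K L b)) (σ : L ≃ₐ[K] L) (ε : ℤ) (i : Fin g) :
    SPt (algebraMap K L a) (algebraMap K L b) :=
  P i - ∑ j, (ε • ρ σ) i j • P j

theorem moved_mem (hab : 4 * (algebraMap K L a) ^ 3 + 27 * (algebraMap K L b) ^ 2 ≠ 0)
    {u : AbsoluteValue (AlgebraicClosure L) ℝ} {s : AlgebraicClosure L}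
    (hs : s ^ 2 = algebraMap L (AlgebraicClosure L) (algebraMap K L (-2 * a * b)))
    {τ : AlgebraicClosure L ≃+* AlgebraicClosure L} {σ : L ≃ₐ[K] L} {ε : ℤ}
    (h1 : ∀ z, u (τ z) = u z)
    (h2 : ∀ x : L, τ (algebraMap L (AlgebraicClosure L) x) =
      algebraMap L (AlgebraicClosure L) (σ x)) (hε : ε = 1 ∨ ε = -1) (h3 : τ s = ε * s)
    {ρ : (L ≃ₐ[K] L) →* Matrix (Fin g) (Fin g) ℤ}
    {e₁ e₂ e₃ : AlgebraicClosure L}
    (hc : Cfg u (algebraMap K L a) (algebraMap K L b) e₁ e₂ e₃) (hne : e₃ - e₁ ≠ 0)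
    {P : Fin g → SPt (algebraMap K L a) (algebraMap K L b)}
    (hP : ∀ σ i, ∑ j, ρ σ i j • gal σ (P j) = P i)
    {Q : SPt (algebraMap K L a) (algebraMap K L b)}
    (hQ : Q ∈ AddSubgroup.closure (Set.range (moved ρ P σ ε))) : Q ∈ E0 hc hab := by
  have hle : AddSubgroup.closure (Set.range (moved ρ P σ ε)) ≤ E0 hc hab := by
    rw [AddSubgroup.closure_le]
    rintro _ ⟨i, rfl⟩
    have e1 : moved ρ P σ ε i = ∑ j, ρ σ i j • (gal σ (P j) - ε • P j) := by
      have e2 : ∀ j, (ε • ρ σ) i j • P j = ρ σ i j • (ε • P j) := by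
        intro j
        rw [smul_smul, mul_comm]
        rfl
      unfold moved
      rw [Finset.sum_congr rfl fun j _ => e2 j]
      simp only [smul_sub, Finset.sum_sub_distrib]
      rw [hP σ i]
    rw [e1]
    exact AddSubgroup.sum_mem _ fun j _ => AddSubgroup.zsmul_mem _
      (comp_act hab hs h1 h2 hε h3 hc hne (P j)) _
  exact hle hQ

/-- the height of `P - ε ρ(σ) P` -/
theorem moved_height (hab : 4 * (algebraMap K L a) ^ 3 + 27 * (algebraMap K L b) ^ 2 ≠ 0)
    {M : Matrix (Fin g) (Fin g) ℤ} (hM : (M.map (Int.cast : ℤ → ℝ)).PosDef)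
    {ρ : (L ≃ₐ[K] L) →* Matrix (Fin g) (Fin g) ℤ} {σ : L ≃ₐ[K] L} {ε : ℤ}
    (hε : ε = 1 ∨ ε = -1) (hr : (ρ σ)ᵀ * M * ρ σ = M)
    (P : Fin g → SPt (algebraMap K L a) (algebraMap K L b)) :
    chatM M (moved ρ P σ ε) ≤ 4 * chatM M P := by
  obtain ⟨-, hq0, hq, -⟩ := chat_spec hab
  have h0 : (ε • ρ σ)ᵀ * M * (ε • ρ σ) = M := by
    have h7 : ε * ε = 1 := by
      rcases hε with h | h <;> rw [h] <;> norm_num
    rw [Matrix.transpose_smul, Matrix.smul_mul, Matrix.smul_mul, Matrix.mul_smul, smul_smul, h7,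
      one_smul, hr]
  have h1 := qM_sub (q := fun Q : SPt (algebraMap K L a) (algebraMap K L b) => chat Q) hq0 hq hM P
    (fun i => ∑ j, (ε • ρ σ) i j • P j)
  rw [qM_act (q := fun Q : SPt (algebraMap K L a) (algebraMap K L b) => chat Q) hq h0 P] at h1
  have h4 : P - (fun i => ∑ j, (ε • ρ σ) i j • P j) = moved ρ P σ ε := rfl
  rw [h4] at h1
  have h5 : chatM M (moved ρ P σ ε) =
      qM (fun Q : SPt (algebraMap K L a) (algebraMap K L b) => chat Q) M (moved ρ P σ ε) := rfl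
  have h6 : chatM M P =
      qM (fun Q : SPt (algebraMap K L a) (algebraMap K L b) => chat Q) M P := rfl
  rw [h5, h6]
  linarith

/-- for a point with a dense orbit the point `P - ε ρ(σ) P` has infinite order -/
theorem moved_nontors {a b : 𝓞 K} {ρ : (L ≃ₐ[K] L) →* Matrix (Fin g) (Fin g) ℤ}
    {σ : L ≃ₐ[K] L} {ε : ℤ}
    (hne : ε • ρ σ ≠ 1) {P : Fin g → SPt (algebraMap K L (a : K)) (algebraMap K L (b : K))}
    (hP : DenseOrbit ρ P) : ¬ IsOfFinAddOrder (moved ρ P σ ε) := by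
  intro ht
  have hne' : (1 : Matrix (Fin g) (Fin g) ℤ) - ε • ρ σ ≠ 0 := sub_ne_zero.2 (Ne.symm hne)
  obtain ⟨i, hi⟩ : ∃ i, ((1 : Matrix (Fin g) (Fin g) ℤ) - ε • ρ σ) i ≠ 0 := by
    by_contra hcon
    push Not at hcon
    exact hne' (funext hcon)
  obtain ⟨φ, hφ, h1⟩ := hP _ hi
  apply h1
  have h2 : ∀ j, (((1 : Matrix (Fin g) (Fin g) ℤ) - ε • ρ σ) i ᵥ* φ) j =
      (φ * (1 - ε • ρ σ)) i j := by
    intro j
    have h3 : ((1 : Matrix (Fin g) (Fin g) ℤ) - ε • ρ σ) * φ = φ * (1 - ε • ρ σ) := by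
      rw [sub_mul, mul_sub, one_mul, mul_one, Matrix.smul_mul, Matrix.mul_smul, hφ σ]
    rw [← h3]
    rfl
  have h4 : ∀ k, moved ρ P σ ε k = ∑ j, ((1 : Matrix (Fin g) (Fin g) ℤ) - ε • ρ σ) k j • P j := by
    intro k
    unfold moved
    simp only [Matrix.sub_apply, sub_smul, Finset.sum_sub_distrib]
    rw [act_one]
  have h5 : ∑ j, (((1 : Matrix (Fin g) (Fin g) ℤ) - ε • ρ σ) i ᵥ* φ) j • P j =
      ∑ k, φ i k • moved ρ P σ ε k := by
    simp only [h2, h4]
    rw [act_mul]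
  rw [h5]
  have h6 : ∀ k, IsOfFinAddOrder (moved ρ P σ ε k) := by
    intro k
    rw [isOfFinAddOrder_iff_nsmul_eq_zero] at ht ⊢
    obtain ⟨m, hm, h7⟩ := ht
    exact ⟨m, hm, congrFun h7 k⟩
  have h7 : ∑ k, φ i k • moved ρ P σ ε k ∈
      AddCommGroup.torsion (SPt (algebraMap K L a) (algebraMap K L b)) :=
    AddSubgroup.sum_mem _ fun j _ => AddSubgroup.zsmul_mem _ (h6 j) _
  exact h7

end form

end Pool.Agent.V5helper58.LA
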