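import Mathlib
import Pool.Agent.Y725.LS.Mult
import Pool.Agent.V5helper58.LA.Act

/-! The canonical pairing of two points that do not reduce to the node. -/

set_option autoImplicit false
set_option linter.unusedSectionVars false

open Real Finset Module NumberField Pool.Agent.H951R3.PB TH951.LS WeierstrassCurve
open Pool.Agent.TH942 Pool.Agent.Y725.LS

namespace Pool.Agent.V5helper58.LA

section W

variable {K : Type} [Field K] [NumberField K] {W : WeierstrassCurve K} [W.IsElliptic]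
  {e₁ e₂ e₃ : AlgebraicClosure K}

/-- the pairing of two points at the position zero -/
theorem pos_pair (v : FinitePlace K) {w : AbsoluteValue (AlgebraicClosure K) ℝ}
    (hvw : Ext v.val w) (h2 : v.val 2 = 1)
    (h : Roots (algebraMap K (AlgebraicClosure K) W.b₂)
      (algebraMap K (AlgebraicClosure K) W.b₄) (algebraMap K (AlgebraicClosure K) W.b₆)
      (algebraMap K (AlgebraicClosure K) W.b₈) e₁ e₂ e₃) {Λ : ℝ}
    (hlt : w ((e₃ - e₁) / (e₂ - e₁)) < 1) (hΛ : Λ = -log (w ((e₃ - e₁) / (e₂ - e₁))))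
    {x y : Fin 2 → K} (hxy : wd x y ≠ 0)
    (hx : pos w Λ (Psi e₁ e₂ (vL K x)) = 0) (hy : pos w Λ (Psi e₁ e₂ (vL K y)) = 0) :
    Λ / 3 ≤ gg w (ev (fL K (fW W))) 4 (log (w (rs (fL K (fW W)) 4))) (vL K x) (vL K y) := by
  classical
  have hw := ext_na v w hvw
  have h2w : w (2 : AlgebraicClosure K) = 1 := by
    rw [← map_ofNat (algebraMap K (AlgebraicClosure K)) 2, hvw]; exact h2
  obtain ⟨h0, h1⟩ := roots_l h
  have n21 : e₂ - e₁ ≠ 0 := sub_ne_zero.2 (Ne.symm h.n12)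
  have hab := roots_wd h
  have hfib := F4_fib (by norm_num : 1 ≤ 4) (fW_hom W) (fW_rs h) w
  have hc : ((e₂ - e₁) ^ 3)⁻¹ ≠ 0 := inv_ne_zero (pow_ne_zero 3 n21)
  set X := vL K x with hX
  set Y := vL K y with hY
  have hXY : wd X Y ≠ 0 := wd_vL_ne hxy
  have hex : emb ![e₂ - e₁, 0] ![e₁, 1] (coo ![e₂ - e₁, 0] ![e₁, 1] X) = X := D2.emb_coo hab X
  have hey : emb ![e₂ - e₁, 0] ![e₁, 1] (coo ![e₂ - e₁, 0] ![e₁, 1] Y) = Y := D2.emb_coo hab Y
  have hxy' : wd (coo ![e₂ - e₁, 0] ![e₁, 1] X) (coo ![e₂ - e₁, 0] ![e₁, 1] Y) ≠ 0 := by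
    intro h0
    have := D2.wd_emb ![e₂ - e₁, 0] ![e₁, 1] (coo ![e₂ - e₁, 0] ![e₁, 1] X)
      (coo ![e₂ - e₁, 0] ![e₁, 1] Y)
    rw [hex, hey, h0, mul_zero] at this
    exact hXY this
  have k1 := gg_cj (by norm_num : 2 ≤ 4) hfib hab hxy'
  have k2 := gg_scale (by norm_num : 2 ≤ 4) (fib_cj hfib hab) hc hxy'
  rw [hex, hey] at k1
  rw [← k1, ← k2.2]
  obtain ⟨hfib', -⟩ := k2
  have hev := roots_ev h
  rw [← hev] at hfib' ⊢
  have k3 := gg_leg hw h2w h0 hlt hΛ hfib' hxy'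
  rw [(coo_Psi e₁ e₂ _).resolve_right n21, (coo_Psi e₁ e₂ _).resolve_right n21, hx, hy] at k3
  rw [(coo_Psi e₁ e₂ _).resolve_right n21, (coo_Psi e₁ e₂ _).resolve_right n21]
  refine le_trans (le_of_eq ?_) k3
  unfold neu
  simp

end W

section sw

variable {K : Type} [Field K] [NumberField K] {A B : K} {e₁ e₂ e₃ : AlgebraicClosure K}

/-- from the roots to the configuration -/
theorem cfg_of (v : FinitePlace K) {w : AbsoluteValue (AlgebraicClosure K) ℝ}
    (hvw : Ext v.val w) (h2 : v.val 2 = 1) (h3 : v.val 3 = 1)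
    (h : Roots (algebraMap K (AlgebraicClosure K) (sw A B).b₂)
      (algebraMap K (AlgebraicClosure K) (sw A B).b₄) (algebraMap K (AlgebraicClosure K) (sw A B).b₆)
      (algebraMap K (AlgebraicClosure K) (sw A B).b₈) e₁ e₂ e₃)
    (hlt : w ((e₃ - e₁) / (e₂ - e₁)) < 1) : Cfg w A B e₁ e₂ e₃ := by
  have b2 : (sw A B).b₂ = 0 := by simp [WeierstrassCurve.b₂, sw]
  have b4 : (sw A B).b₄ = 2 * A := by simp [WeierstrassCurve.b₄, sw]
  have b6 : (sw A B).b₆ = 4 * B := by simp [WeierstrassCurve.b₆, sw]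
  have r2 := h.h2
  have r4 := h.h4
  have r6 := h.h6
  rw [b2, map_zero] at r2
  rw [b4, map_mul, map_ofNat] at r4
  rw [b6, map_mul, map_ofNat] at r6
  have c4 : (4 : AlgebraicClosure K) ≠ 0 := by norm_num
  have c2 : (2 : AlgebraicClosure K) ≠ 0 := by norm_num
  have n21 : e₂ - e₁ ≠ 0 := sub_ne_zero.2 (Ne.symm h.n12)
  refine ⟨?_, ?_, ?_, ?_, ext_na v w hvw, ?_, ?_⟩
  · have : (-4 : AlgebraicClosure K) * (e₁ + e₂ + e₃) = 0 := r2.symm
    exact (mul_eq_zero.1 this).resolve_left (by norm_num)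
  · exact mul_left_cancel₀ c2 r4.symm
  · apply mul_left_cancel₀ c4
    linear_combination r6
  · rwa [map_div₀, div_lt_one (w.pos n21)] at hlt
  · rw [← map_ofNat (algebraMap K (AlgebraicClosure K)) 2, hvw]; exact h2
  · rw [← map_ofNat (algebraMap K (AlgebraicClosure K)) 3, hvw]; exact h3

/-- a point that does not reduce to the node has position zero -/
theorem pos_of_inZ {w : AbsoluteValue (AlgebraicClosure K) ℝ} (hc : Cfg w A B e₁ e₂ e₃)
    {Λ : ℝ} {P : SPt A B} (hP : InZ w e₁ e₂ P) :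
    pos w Λ (Psi e₁ e₂ (vL K P.xRep)) = 0 := by
  have hq := hc.q_pos
  have n21 : e₂ - e₁ ≠ 0 := by
    intro h0
    rw [h0, map_zero] at hq
    exact lt_irrefl _ hq
  have e0 : Psi e₁ e₂ (vL K P.xRep) 0 = uu e₁ P / (e₂ - e₁) := rfl
  have e1 : Psi e₁ e₂ (vL K P.xRep) 1 = zz (AlgebraicClosure K) P := rfl
  have hne : uu e₁ P ≠ 0 := by
    intro h0
    by_cases hz : zz (AlgebraicClosure K) P = 0
    · exact uu_ne P hz h0
    · rw [InZ, h0, map_zero] at hP
      have := mul_pos hq (w.pos hz)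
      linarith
  apply pos_zero
  · rw [e0]; exact div_ne_zero hne n21
  · rw [e0, e1, map_div₀, le_div_iff₀ hq, mul_comm]
    exact hP

end sw

end Pool.Agent.V5helper58.LA
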