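import Mathlib
import Pool.Agent.Y725.LS.Final

/-! The notions in the statement about places where the toric part is not split. -/

set_option autoImplicit false
set_option linter.unusedSectionVars false

open NumberField IsDedekindDomain Matrix
open Pool.Agent.TH910.LS Pool.Agent.Y725.LS

namespace Pool.Agent.V5helper58.LA

variable {K : Type} [Field K] [NumberField K] {L : Type} [Field L] [NumberField L] [Algebra K L]
  {g : ℕ}

/-- The form `A` of `E ^ g`, `E : y² = x³ + a x + b`, given by `ρ` has potentially multiplicative
reduction at the place `w` of `L`, which does not divide six, and the toric part of `A` over the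
completion of `K` below `w` is not a split torus: for a place `u` of the algebraic closure above
`w` there is an element `τ` of the decomposition group of `u` over `K` (an automorphism over `K`
which preserves `u`) which acts non-trivially on the lattice `ℤ ^ g` of cocharacters of the toric
part of `A`. Here `τ` acts by the matrix `ε ρ(σ)`, where `σ` is the restriction of `τ` to `L` and
`ε` is the sign of the action of `τ` on `√(-2 a b)` (`E` has split multiplicative reduction over a
local field containing `K` if and only if `-2 a b` is a square in it). -/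
def NotSplit (a b : 𝓞 K) (ρ : (L ≃ₐ[K] L) →* Matrix (Fin g) (Fin g) ℤ) (w : FinitePlace L) :
    Prop :=
  w.val 6 = 1 ∧ 1 < w.val (algebraMap K L (jinv (a : K) b)) ∧
  ∃ (u : AbsoluteValue (AlgebraicClosure L) ℝ) (s : AlgebraicClosure L)
    (τ : AlgebraicClosure L ≃+* AlgebraicClosure L) (σ : L ≃ₐ[K] L) (ε : ℤ),
    (∀ x : L, u (algebraMap L (AlgebraicClosure L) x) = w.val x) ∧
    s ^ 2 = algebraMap L (AlgebraicClosure L) (algebraMap K L (-2 * (a : K) * b)) ∧
    (∀ z, u (τ z) = u z) ∧
    (∀ x : L, τ (algebraMap L (AlgebraicClosure L) x) =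
      algebraMap L (AlgebraicClosure L) (σ x)) ∧
    (ε = 1 ∨ ε = -1) ∧ τ s = ε * s ∧ ε • ρ σ ≠ 1

/-- The Szpiro-type condition for the form of a power of `y² = x³ + a x + b` given by `ρ`, in which
the places where the toric part is not split count with their full height: leaving out at most `s`
places, the places dividing `M₀` and a part of size at most `δ h(j)`, the sum of `log |j|_v` over
the places `v` of `K` with `|j|_v > 1` is at most `σ` times the sum of `log N w` over places `w` of
`L` of visibly bad reduction (`BadAt`) plus the sum of `log |j|_w` over places `w` of `L` where the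
toric part is not split. -/
def SzpiroSplit (σ δ : ℝ) (s M₀ : ℕ) (a b : 𝓞 K)
    (ρ : (L ≃ₐ[K] L) →* Matrix (Fin g) (Fin g) ℤ) : Prop :=
  ∃ (T : Finset (FinitePlace K)) (F N : Finset (FinitePlace L)), T.card ≤ s ∧
    (∀ w ∈ F, BadAt a b w) ∧ (∀ w ∈ N, NotSplit a b ρ w) ∧
    ∀ S : Finset (FinitePlace K),
      (∀ v ∈ S, v ∉ T ∧ v.val (M₀ : K) = 1 ∧ 1 < v.val (jinv (a : K) b)) →
      ∑ v ∈ S, Real.log (v.val (jinv (a : K) b)) ≤
        σ * (∑ w ∈ F, Real.log (Ideal.absNorm w.maximalIdeal.asIdeal) +
          ∑ w ∈ N, Real.log (w.val (algebraMap K L (jinv (a : K) b)))) +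
        δ * Height.logHeight₁ (jinv (a : K) b)

end Pool.Agent.V5helper58.LA
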