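import Mathlib
import Pool.Agent.V5helper58.LA.Stmt
import Pool.Agent.V5helper58.LA.Form
import Pool.Agent.V5helper58.LA.Pair
import Pool.Agent.V5helper58.LA.Energy

/-! The lower bound of Lang and Silverman if there is much height at the places where the toric
part is not split. -/

set_option autoImplicit false
set_option linter.unusedSectionVars false

open Height NumberField Module IsDedekindDomain Matrix Filter Topology Finset
open WeierstrassCurve Pool.Agent.H951R3.PB TH951.LS TH951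
open Pool.Agent.TH942 Pool.Agent.TH910.LS Pool.Agent.Y725.LS

namespace Pool.Agent.V5helper58.LA

/-- **Much height at places where the toric part is not split.** -/
theorem case_far (D g : ℕ) {ε₀ : ℝ} (hε₀ : 0 < ε₀) : ∃ C A : ℝ, 0 < C ∧ 0 ≤ A ∧
    ∀ (K : Type) [Field K] [NumberField K], finrank ℚ K ≤ D →
    ∀ a b : 𝓞 K, 4 * (a : K) ^ 3 + 27 * (b : K) ^ 2 ≠ 0 → A < absH (jinv (a : K) b) →
    ∀ (L : Type) [Field L] [NumberField L] [Algebra K L] [IsGalois K L] [DecidableEq L],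
      finrank K L ≤ 3 ^ (g * g) →
    ∀ (ρ : (L ≃ₐ[K] L) →* Matrix (Fin g) (Fin g) ℤ) (M : Matrix (Fin g) (Fin g) ℤ)
      (P : Fin g → Pts L a b) (N : Finset (FinitePlace L)),
      Polar ρ M → FixedPt ρ P → DenseOrbit ρ P → (∀ w ∈ N, NotSplit a b ρ w) →
      ε₀ * logHeight₁ (algebraMap K L (jinv (a : K) b)) ≤
        ∑ w ∈ N, Real.log (w.val (algebraMap K L (jinv (a : K) b))) →
      absH (jinv (a : K) b) ≤ C * (chatM M P / finrank ℚ L) := by
  classical
  obtain ⟨n, hn⟩ : ∃ n : ℝ, n = 2 * 3 ^ (g * g) := ⟨_, rfl⟩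
  have hn0 : 0 < n := by rw [hn]; positivity
  obtain ⟨C₁, A₁, hC₁, hA₁, hfar⟩ := far_case (D * 3 ^ (g * g)) (ε := ε₀ / n) (by positivity)
  refine ⟨C₁ * 4, A₁, by positivity, hA₁, ?_⟩
  intro K _ _ hK a b hab hAj L _ _ _ _ _ hKL ρ M P N hM hP hPd hN hsum
  have hnQ : finrank ℚ L ≤ D * 3 ^ (g * g) := by
    rw [← Module.finrank_mul_finrank ℚ K L]
    exact Nat.mul_le_mul hK hKL
  have hab' : 4 * (algebraMap K L a) ^ 3 + 27 * (algebraMap K L b) ^ 2 ≠ 0 := by
    have h1 : algebraMap K L (4 * (a : K) ^ 3 + 27 * (b : K) ^ 2) ≠ 0 := by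
      rw [ne_eq, map_eq_zero]
      exact hab
    rw [map_add, map_mul, map_mul, map_pow, map_pow, map_ofNat, map_ofNat] at h1
    exact h1
  obtain ⟨nL, hnL⟩ : ∃ nL : ℝ, nL = finrank ℚ L := ⟨_, rfl⟩
  have hnL0 : 0 < nL := by
    rw [hnL]
    exact_mod_cast (Module.finrank_pos : 0 < Module.finrank ℚ L)
  have hjL : jinv (algebraMap K L a) (algebraMap K L b) = algebraMap K L (jinv (a : K) b) := by
    unfold jinv
    simp [map_ofNat]
  have hell : (sw (algebraMap K L (a : K)) (algebraMap K L (b : K))).IsElliptic := sw_ell hab'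
  have hjj : (sw (algebraMap K L (a : K)) (algebraMap K L (b : K))).j =
      algebraMap K L (jinv (a : K) b) := by
    rw [← hjL]
    exact jinv_eq _ _ hell
  have hlim : ∀ Q : Pts L a b, Tendsto (fun n : ℕ =>
      logHeight ((2 ^ n • Q).xRep) / (4 ^ n * Module.finrank ℚ L)) atTop
      (𝓝 (chat Q / nL)) := by
    intro Q
    have h := ((chat_spec hab').1 Q).div_const nL
    refine h.congr fun n => ?_
    rw [div_div, hnL]
    rfl
  have habsL : logHeight₁ (algebraMap K L (jinv (a : K) b)) / Module.finrank ℚ L =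
      absH (jinv (a : K) b) := absH_ext L _
  -- the automorphisms at the places
  have hex : ∀ w : FinitePlace L, ∃ (d : (L ≃ₐ[K] L) × ℤˣ)
      (u : AbsoluteValue (AlgebraicClosure L) ℝ), Ext w.val u ∧
      (w ∈ N → (d.2 : ℤ) • ρ d.1 ≠ 1 ∧
        ∃ (s : AlgebraicClosure L) (τ : AlgebraicClosure L ≃+* AlgebraicClosure L),
        s ^ 2 = algebraMap L (AlgebraicClosure L) (algebraMap K L (-2 * (a : K) * b)) ∧
        (∀ z, u (τ z) = u z) ∧
        (∀ x : L, τ (algebraMap L (AlgebraicClosure L) x) =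
          algebraMap L (AlgebraicClosure L) (d.1 x)) ∧
        τ s = ((d.2 : ℤ) : AlgebraicClosure L) * s) := by
    intro w
    by_cases hw : w ∈ N
    · obtain ⟨-, -, u, s, τ, σ, ε, h1, h2, h3, h4, h5, h6, h7⟩ := hN w hw
      obtain ⟨η, hη⟩ : ∃ η : ℤˣ, (η : ℤ) = ε := by
        rcases h5 with h | h
        · exact ⟨1, by rw [h]; rfl⟩
        · exact ⟨-1, by rw [h]; rfl⟩
      refine ⟨(σ, η), u, h1, fun _ => ⟨by rw [hη]; exact h7, s, τ, h2, h3, h4, ?_⟩⟩
      rw [hη]
      exact h6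
    · obtain ⟨u, hu⟩ := exists_ext_fin w
      exact ⟨1, u, hu, fun h => absurd h hw⟩
  choose dd wf hwf hwN using hex
  -- pigeonhole
  obtain ⟨d, hd⟩ : ∃ d : (L ≃ₐ[K] L) × ℤˣ,
      ε₀ / n * logHeight₁ (algebraMap K L (jinv (a : K) b)) ≤
        ∑ w ∈ N.filter (fun w => dd w = d),
          Real.log (w.val (algebraMap K L (jinv (a : K) b))) ∧
        (N.filter (fun w => dd w = d)).Nonempty := by
    by_contra hcon
    push Not at hcon
    have hpos : 0 < logHeight₁ (algebraMap K L (jinv (a : K) b)) := by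
      have h1 : 0 < absH (jinv (a : K) b) := by linarith
      have h2 : logHeight₁ (algebraMap K L (jinv (a : K) b)) = nL * absH (jinv (a : K) b) := by
        rw [← habsL, ← hnL]
        field_simp
      rw [h2]
      positivity
    have hcard : (Fintype.card ((L ≃ₐ[K] L) × ℤˣ) : ℝ) ≤ n := by
      have h1 : Fintype.card (L ≃ₐ[K] L) ≤ 3 ^ (g * g) := (AlgEquiv.card_le).trans hKL
      rw [Fintype.card_prod, hn]
      have h2 : Fintype.card ℤˣ = 2 := by decide
      rw [h2]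
      push_cast
      have h3 : (Fintype.card (L ≃ₐ[K] L) : ℝ) ≤ 3 ^ (g * g) := by exact_mod_cast h1
      linarith
    have hlt : ∀ d : (L ≃ₐ[K] L) × ℤˣ, ∑ w ∈ N.filter (fun w => dd w = d),
          Real.log (w.val (algebraMap K L (jinv (a : K) b))) <
        ε₀ / n * logHeight₁ (algebraMap K L (jinv (a : K) b)) := by
      intro d
      by_contra h1
      push Not at h1
      have h2 := hcon d h1
      rw [h2, Finset.sum_empty] at h1
      have : 0 < ε₀ / n * logHeight₁ (algebraMap K L (jinv (a : K) b)) := by positivity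
      linarith
    have h1 : ∑ w ∈ N, Real.log (w.val (algebraMap K L (jinv (a : K) b))) =
        ∑ d : (L ≃ₐ[K] L) × ℤˣ, ∑ w ∈ N.filter (fun w => dd w = d),
          Real.log (w.val (algebraMap K L (jinv (a : K) b))) :=
      (Finset.sum_fiberwise N dd _).symm
    have h2 : ∑ d : (L ≃ₐ[K] L) × ℤˣ, ∑ w ∈ N.filter (fun w => dd w = d),
          Real.log (w.val (algebraMap K L (jinv (a : K) b))) <
        ∑ _d : (L ≃ₐ[K] L) × ℤˣ, ε₀ / n * logHeight₁ (algebraMap K L (jinv (a : K) b)) :=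
      Finset.sum_lt_sum_of_nonempty Finset.univ_nonempty fun d _ => hlt d
    rw [Finset.sum_const, Finset.card_univ, nsmul_eq_mul] at h2
    have h3 : (Fintype.card ((L ≃ₐ[K] L) × ℤˣ) : ℝ) *
        (ε₀ / n * logHeight₁ (algebraMap K L (jinv (a : K) b))) ≤
        n * (ε₀ / n * logHeight₁ (algebraMap K L (jinv (a : K) b))) :=
      mul_le_mul_of_nonneg_right hcard (by positivity)
    have h4 : n * (ε₀ / n * logHeight₁ (algebraMap K L (jinv (a : K) b))) =
        ε₀ * logHeight₁ (algebraMap K L (jinv (a : K) b)) := by field_simp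
    linarith
  obtain ⟨hd, w₀, hw₀⟩ := hd
  obtain ⟨hw₀N, hw₀d⟩ := Finset.mem_filter.1 hw₀
  have hdne : (d.2 : ℤ) • ρ d.1 ≠ 1 := by
    rw [← hw₀d]
    exact (hwN w₀ hw₀N).1
  have hε : (d.2 : ℤ) = 1 ∨ (d.2 : ℤ) = -1 := by
    rcases Int.units_eq_one_or d.2 with h | h
    · left; rw [h]; rfl
    · right; rw [h]; rfl
  -- the point
  obtain ⟨-, hq0, hq, -⟩ := chat_spec hab'
  obtain ⟨Q, hQc, hQ, hQ2⟩ := Pool.Agent.TH910.LS.reduction hab' M hM.1 (moved ρ P d.1 d.2)
    (moved_nontors hdne hPd)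
  have hQ4 : chat Q ≤ 4 * chatM M P := hQ2.trans (moved_height hab' hM.1 hε (hM.2 d.1) P)
  have key := hfar L hnQ (sw (algebraMap K L (a : K)) (algebraMap K L (b : K)))
    (by rw [hjj, habsL]; exact hAj) (fun Q => chat Q / nL) hlim wf hwf Q
    (N.filter (fun w => dd w = d)) hQ ?_ ?_
  · rw [hjj, habsL] at key
    refine key.trans ?_
    rw [← hnL]
    calc C₁ * (chat Q / nL) ≤ C₁ * (4 * chatM M P / nL) :=
          mul_le_mul_of_nonneg_left (div_le_div_of_nonneg_right hQ4 hnL0.le) hC₁.le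
      _ = C₁ * 4 * (chatM M P / nL) := by ring
  · intro w hw
    obtain ⟨hwN', hwd⟩ := Finset.mem_filter.1 hw
    obtain ⟨h6, hj1, -⟩ := hN w hwN'
    refine ⟨h6, by rw [hjj]; exact hj1, ?_⟩
    have hj1' : 1 < w.val (sw (algebraMap K L (a : K)) (algebraMap K L (b : K))).j := by
      rw [hjj]; exact hj1
    obtain ⟨h2, h3⟩ : w.val (2 : L) = 1 ∧ w.val (3 : L) = 1 := by
      have a1 : w.val ((2 : ℕ) : L) ≤ 1 := NF.natCast_le_one w 2
      have a2 : w.val ((3 : ℕ) : L) ≤ 1 := NF.natCast_le_one w 3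
      have b1 : 0 ≤ w.val ((2 : ℕ) : L) := w.val.nonneg _
      have b2 : 0 ≤ w.val ((3 : ℕ) : L) := w.val.nonneg _
      have e1 : (6 : L) = ((2 : ℕ) : L) * ((3 : ℕ) : L) := by norm_num
      rw [e1, map_mul] at h6
      have c1 : w.val ((2 : ℕ) : L) = 1 := by
        apply le_antisymm a1; nlinarith
      have c2 : w.val ((3 : ℕ) : L) = 1 := by
        rw [c1, one_mul] at h6; exact h6
      exact ⟨by simpa using c1, by simpa using c2⟩
    obtain ⟨e₁, e₂, e₃, hRt, hlt, hΛ⟩ := roots_lt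
      (W := sw (algebraMap K L (a : K)) (algebraMap K L (b : K))) w (hwf w) h2 hj1'
    have hcfg := cfg_of w (hwf w) h2 h3 hRt hlt
    have hne : e₃ - e₁ ≠ 0 := sub_ne_zero.2 (Ne.symm hRt.n13)
    obtain ⟨-, s, τ, hs, t1, t2, t3⟩ := hwN w hwN'
    rw [hwd] at t2 t3
    have hmem : Q ∈ E0 hcfg hab' := moved_mem hab' hs t1 t2 hε t3 hcfg hne hP hQc
    intro i l hwd
    have p1 : InZ (wf w) e₁ e₂ (2 ^ i • Q) := AddSubgroup.nsmul_mem _ hmem (2 ^ i)
    have p2 : InZ (wf w) e₁ e₂ (2 ^ l • Q) := AddSubgroup.nsmul_mem _ hmem (2 ^ l)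
    have hp := pos_pair (W := sw (algebraMap K L (a : K)) (algebraMap K L (b : K))) w (hwf w) h2
      hRt hlt hΛ.symm hwd (pos_of_inZ hcfg p1) (pos_of_inZ hcfg p2)
    refine le_trans (le_of_eq ?_) hp
    ring
  · rw [hjj]
    exact hd

end Pool.Agent.V5helper58.LA
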