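import Mathlib
import Pool.Agent.V5helper58.LA.Main

/-! The lower bound of Lang and Silverman, with the places where the toric part is not split counted
in full. -/

set_option autoImplicit false
set_option linter.unusedSectionVars false

open Height NumberField Module IsDedekindDomain Matrix Filter Topology Finset
open WeierstrassCurve Pool.Agent.H951R3.PB TH951.LS TH951
open Pool.Agent.TH942 Pool.Agent.TH910.LS Pool.Agent.Y725.LS

namespace Pool.Agent.V5helper58.LA

/-- the number of poles is bounded by the height -/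
theorem card_poles {K : Type} [Field K] [NumberField K] (j : K) :
    ∃ T : Finset (FinitePlace K), (∀ v, 1 < v.val j → v ∈ T) ∧
      (T.card : ℝ) * Real.log 2 ≤ logHeight₁ j := by
  classical
  have hlog2 : 0 < Real.log 2 := Real.log_pos (by norm_num)
  by_cases hj : j = 0
  · refine ⟨∅, fun v hv => ?_, ?_⟩
    · rw [hj, map_zero] at hv
      exact absurd hv (by norm_num)
    · rw [Finset.card_empty, Nat.cast_zero, zero_mul]
      exact zero_le_logHeight₁ j
  · refine ⟨(F4_finite_ne hj).toFinset.filter (fun v => 1 < v.val j), fun v hv => ?_, ?_⟩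
    · rw [Finset.mem_filter, Set.Finite.mem_toFinset, Set.mem_ofPred_eq]
      exact ⟨hv.ne', hv⟩
    · set T := (F4_finite_ne hj).toFinset.filter (fun v => 1 < v.val j) with hT
      have h1 := FE.posLog_sum_le j T
      have h2 : 0 ≤ ∑ v : InfinitePlace K, (v.mult : ℝ) * Real.posLog (v.val j) :=
        Finset.sum_nonneg fun v _ => mul_nonneg (Nat.cast_nonneg _) Real.posLog_nonneg
      have h3 : (T.card : ℝ) * Real.log 2 ≤ ∑ v ∈ T, Real.posLog (v.val j) := by
        rw [← nsmul_eq_mul]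
        refine Finset.card_nsmul_le_sum _ _ _ fun v hv => ?_
        have hv1 : 1 < v.val j := (Finset.mem_filter.1 hv).2
        refine le_trans ?_ (le_max_right _ _)
        apply Real.log_le_log (by norm_num)
        obtain ⟨k, hk⟩ := NF.Nm_pow v hj
        have hk' : v.val j = (NF.Nm v : ℝ) ^ k := hk
        have hN : (2 : ℝ) ≤ NF.Nm v := by
          have := NF.one_lt_Nm v
          exact_mod_cast this
        have hk0 : 1 ≤ k := by
          by_contra hcon
          push Not at hcon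
          have h4 : k ≤ 0 := by omega
          have h5 : (NF.Nm v : ℝ) ^ k ≤ 1 := zpow_le_one_of_nonpos₀ (by linarith) h4
          rw [hk'] at hv1
          linarith
        rw [hk']
        calc (2 : ℝ) ≤ NF.Nm v := hN
          _ = (NF.Nm v : ℝ) ^ (1 : ℤ) := by rw [zpow_one]
          _ ≤ (NF.Nm v : ℝ) ^ k := zpow_le_zpow_right₀ (by linarith) hk0
      linarith

/-- **Lang and Silverman's lower bound; only the places with a split toric part matter.** -/
theorem split_main (D g s : ℕ) (hg : 0 < g) (κ σ : ℝ) (hκ : 0 ≤ κ) :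
    ∃ c δ : ℝ, 0 < c ∧ 0 < δ ∧ ∀ M₀ : ℕ, M₀ ≠ 0 → ∃ A c₀ : ℝ, 0 < c₀ ∧
    ∀ (K : Type) [Field K] [NumberField K], Module.finrank ℚ K ≤ D →
    ∀ a b : 𝓞 K, 4 * (a : K) ^ 3 + 27 * (b : K) ^ 2 ≠ 0 →
      absH (a : K) + absH (b : K) ≤ κ * (1 + absH (jinv (a : K) b)) →
    ∀ (L : Type) [Field L] [NumberField L] [Algebra K L] [IsGalois K L] [DecidableEq L]
      (ρ : (L ≃ₐ[K] L) →* Matrix (Fin g) (Fin g) ℤ) (M : Matrix (Fin g) (Fin g) ℤ)
      (P : Fin g → Pts L a b) (T : Finset (HeightOneSpectrum (𝓞 L))),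
      SzpiroSplit σ δ s M₀ a b ρ → Faithful ρ → Polar ρ M → FixedPt ρ P → DenseOrbit ρ P →
      RamPrimes K T →
        (if A < absH (jinv (a : K) b) then c else c₀) *
            (1 + absH (jinv (a : K) b) + logNorms T / Module.finrank ℚ L) ≤
          chatM M P / Module.finrank ℚ L := by
  classical
  obtain ⟨c₁, δ₁, hc₁, hδ₁, hmain⟩ := dense_main D g s hg κ σ hκ
  obtain ⟨κ₀, hκ₀, hvar⟩ := var_const
  obtain ⟨n, hn⟩ : ∃ n : ℝ, n = 3 ^ (g * g) := ⟨_, rfl⟩
  have hn0 : 0 < n := by rw [hn]; positivity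
  have hn1 : 1 ≤ n := by rw [hn]; exact one_le_pow₀ (by norm_num)
  obtain ⟨κ', hκ'⟩ : ∃ κ' : ℝ, κ' = δ₁ / (2 * (|σ| + 1)) := ⟨_, rfl⟩
  have hκ'0 : 0 < κ' := by rw [hκ']; positivity
  obtain ⟨C, A₁, hC, hA₁, hfar⟩ := case_far D g (ε₀ := κ' / n) (by positivity)
  obtain ⟨E, hE⟩ : ∃ E : ℝ, E = 2 * ((1 + κ₀ * (1 + 2 * κ) * (1 + n)) * C + 4 * n) := ⟨_, rfl⟩
  have hE0 : 0 < E := by rw [hE]; positivity
  refine ⟨min c₁ (1 / E), δ₁ / 2, lt_min hc₁ (by positivity), by positivity, ?_⟩
  intro M₀ hM₀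
  obtain ⟨A₂, c₂, hc₂, hmain⟩ := hmain M₀ hM₀
  obtain ⟨A, hA⟩ : ∃ A : ℝ, A = max A₂ (max A₁ 1) := ⟨_, rfl⟩
  have hAA₂ : A₂ ≤ A := by rw [hA]; exact le_max_left _ _
  have hAA₁ : A₁ ≤ A := by rw [hA]; exact (le_max_left _ _).trans (le_max_right _ _)
  have hA1 : 1 ≤ A := by rw [hA]; exact (le_max_right _ _).trans (le_max_right _ _)
  have hlog2 : 0 < Real.log 2 := Real.log_pos (by norm_num)
  -- curves of small height
  obtain ⟨s', hs'⟩ : ∃ s' : ℕ, s' = ⌈D * A / Real.log 2⌉₊ := ⟨_, rfl⟩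
  obtain ⟨c₃, δ₃, hc₃, hδ₃, hsmall⟩ := dense_main D g s' hg κ 0 hκ
  obtain ⟨A₃, c₄, hc₄, hsmall⟩ := hsmall 1 one_ne_zero
  refine ⟨A, min c₃ c₄, lt_min hc₃ hc₄, ?_⟩
  intro K _ _ hK a b hab hκab L _ _ _ _ _ ρ M P T hSz hf hM hP hPd hT
  have hor : (Generates P ∧ ¬ IsOfFinAddOrder P) ∨ (Faithful ρ ∧ DenseOrbit ρ P) :=
    Or.inr ⟨hf, hPd⟩
  obtain ⟨nL, hnL⟩ : ∃ nL : ℝ, nL = ((Module.finrank ℚ L : ℕ) : ℝ) := ⟨_, rfl⟩
  have hnL0 : 0 < nL := by
    rw [hnL]
    exact_mod_cast (Module.finrank_pos : 0 < Module.finrank ℚ L)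
  have hj0 : 0 ≤ absH (jinv (a : K) b) :=
    div_nonneg (zero_le_logHeight₁ _) (Nat.cast_nonneg _)
  have hT0 : 0 ≤ logNorms T / nL :=
    div_nonneg (Finset.sum_nonneg fun _ _ => Real.log_natCast_nonneg _) hnL0.le
  have hY0 : 0 ≤ 1 + absH (jinv (a : K) b) + logNorms T / nL := by linarith
  by_cases hAj : A < absH (jinv (a : K) b)
  · rw [if_pos hAj]
    obtain ⟨T₁, F, N, hT₁, hF, hN, hS⟩ := hSz
    have hNnn : 0 ≤ ∑ w ∈ N, Real.log (w.val (algebraMap K L (jinv (a : K) b))) :=
      Finset.sum_nonneg fun w hw => (Real.log_pos (hN w hw).2.1).le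
    have hlh : 0 ≤ logHeight₁ (jinv (a : K) b) := zero_le_logHeight₁ _
    by_cases hcase : ∑ w ∈ N, Real.log (w.val (algebraMap K L (jinv (a : K) b))) ≤
        κ' * logHeight₁ (jinv (a : K) b)
    · -- little height at these places
      have hSz' : SzpiroLe σ δ₁ s M₀ a b L := by
        refine ⟨T₁, F, hT₁, hF, fun S hS' => (hS S hS').trans ?_⟩
        have e1 : σ * ∑ w ∈ N, Real.log (w.val (algebraMap K L (jinv (a : K) b))) ≤
            δ₁ / 2 * logHeight₁ (jinv (a : K) b) := by
          calc σ * ∑ w ∈ N, Real.log (w.val (algebraMap K L (jinv (a : K) b)))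
              ≤ (|σ| + 1) * ∑ w ∈ N, Real.log (w.val (algebraMap K L (jinv (a : K) b))) := by
                refine mul_le_mul_of_nonneg_right ?_ hNnn
                linarith [le_abs_self σ]
            _ ≤ (|σ| + 1) * (κ' * logHeight₁ (jinv (a : K) b)) :=
                mul_le_mul_of_nonneg_left hcase (by positivity)
            _ = δ₁ / 2 * logHeight₁ (jinv (a : K) b) := by
                rw [hκ']
                field_simp
        rw [mul_add]
        linarith
      have key := hmain K hK a b hab hκab L hSz' ρ M P T hM hP hT hor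
      rw [if_pos (by linarith)] at key
      refine le_trans ?_ key
      rw [← hnL]
      exact mul_le_mul_of_nonneg_right (min_le_left _ _) hY0
    · -- much height at these places
      push Not at hcase
      obtain ⟨hH, ht⟩ : Generates P ∧ ¬ IsOfFinAddOrder P :=
        ⟨hPd.stab hf hP, hPd.nontors hg⟩
      have hKL := faithful_deg hf
      have hKL' : (Module.finrank K L : ℝ) ≤ n := by rw [hn]; exact_mod_cast hKL
      have h1 : absH (jinv (a : K) b) ≤ C * (chatM M P / finrank ℚ L) := by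
        refine hfar K hK a b hab (by linarith) L hKL ρ M P N hM hP hPd hN ?_
        rw [logHeight₁_ext]
        calc κ' / n * (Module.finrank K L * logHeight₁ (jinv (a : K) b))
            ≤ κ' / n * (n * logHeight₁ (jinv (a : K) b)) := by gcongr
          _ = κ' * logHeight₁ (jinv (a : K) b) := by field_simp
          _ ≤ _ := hcase.le
      have hY : 1 + (absH (a : K) + absH (b : K)) ≤
          (1 + 2 * κ) * absH (jinv (a : K) b) := by
        have h2 : κ * (1 + absH (jinv (a : K) b)) ≤ κ * (2 * absH (jinv (a : K) b)) :=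
          mul_le_mul_of_nonneg_left (by linarith) hκ
        linarith
      have h2 := ram_bound hκ₀ hvar hab hM hP hT hH ht hY
      rw [← hnL, ← hn] at h2
      rw [← hnL] at h1 ⊢
      obtain ⟨X, hXd⟩ : ∃ X : ℝ, X = chatM M P / nL := ⟨_, rfl⟩
      rw [← hXd] at h1 h2 ⊢
      have hX0 : 0 ≤ X := by
        have : 0 < C * X := by linarith
        exact (pos_of_mul_pos_right this hC.le).le
      refine (mul_le_mul_of_nonneg_right (min_le_right _ _) hY0).trans ?_
      rw [one_div, inv_mul_le_iff₀ hE0]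
      have h5 : absH (jinv (a : K) b) + (κ₀ * ((1 + 2 * κ) * absH (jinv (a : K) b)) +
          n * (4 * X + κ₀ * ((1 + 2 * κ) * absH (jinv (a : K) b)))) =
          (1 + κ₀ * (1 + 2 * κ) * (1 + n)) * absH (jinv (a : K) b) + 4 * n * X := by ring
      have h6 : (1 + κ₀ * (1 + 2 * κ) * (1 + n)) * absH (jinv (a : K) b) ≤
          (1 + κ₀ * (1 + 2 * κ) * (1 + n)) * (C * X) :=
        mul_le_mul_of_nonneg_left h1 (by positivity)
      have h7 : absH (jinv (a : K) b) + logNorms T / nL ≤
          ((1 + κ₀ * (1 + 2 * κ) * (1 + n)) * C + 4 * n) * X := by linarith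
      rw [hE]
      linarith
  · rw [if_neg hAj]
    push Not at hAj
    obtain ⟨T₂, hT₂, hT₂'⟩ := card_poles (jinv (a : K) b)
    have hSz' : SzpiroLe 0 δ₃ s' 1 a b L := by
      refine ⟨T₂, ∅, ?_, fun w hw => absurd hw (Finset.notMem_empty w), fun S hS => ?_⟩
      · rw [hs']
        have h1 : logHeight₁ (jinv (a : K) b) ≤ D * A := by
          have h2 : logHeight₁ (jinv (a : K) b) = finrank ℚ K * absH (jinv (a : K) b) := by
            have h3 : (0 : ℝ) < Module.finrank ℚ K := by exact_mod_cast Module.finrank_pos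
            unfold absH
            field_simp
          rw [h2]
          exact mul_le_mul (by exact_mod_cast hK) hAj hj0 (Nat.cast_nonneg _)
        have h2 : (T₂.card : ℝ) ≤ D * A / Real.log 2 := by
          rw [le_div_iff₀ hlog2]
          linarith
        exact_mod_cast h2.trans (Nat.le_ceil _)
      · have hSe : S = ∅ := by
          rw [Finset.eq_empty_iff_forall_notMem]
          intro v hv
          exact (hS v hv).1 (hT₂ v (hS v hv).2.2)
        rw [hSe, Finset.sum_empty, zero_mul, zero_add]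
        exact mul_nonneg hδ₃.le (zero_le_logHeight₁ _)
    have key := hsmall K hK a b hab hκab L hSz' ρ M P T hM hP hT hor
    refine le_trans ?_ key
    rw [← hnL]
    refine mul_le_mul_of_nonneg_right ?_ hY0
    split_ifs
    · exact min_le_left _ _
    · exact min_le_right _ _

end Pool.Agent.V5helper58.LA
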